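import Pool.Agent.Helper29.EV2.Multi

/-!
# Finiteness lemmas for the tail bound
-/

set_option autoImplicit false

namespace Pool.Agent.Helper29.EV2

open Polynomial

theorem cos_two_arg (z : ℂ) (hz : z ≠ 0) : Real.cos (2 * Complex.arg z) = (z ^ 2).re / ‖z‖ ^ 2 := by
  have h : ‖z‖ ≠ 0 := norm_ne_zero_iff.2 hz
  rw [Real.cos_two_mul, Complex.cos_arg hz]
  have e : ‖z‖ ^ 2 = z.re ^ 2 + z.im ^ 2 := by
    rw [← Complex.normSq_eq_norm_sq, Complex.normSq_apply]; ring
  have e2 : (z ^ 2).re = z.re ^ 2 - z.im ^ 2 := by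
    rw [pow_two, Complex.mul_re]; ring
  rw [e2]
  field_simp
  rw [e]
  ring

/-- lists of bounded length over a finite set -/
theorem finite_lists {α : Type*} {S : Set α} (hS : S.Finite) (m : ℕ) :
    {l : List α | l.length ≤ m ∧ ∀ a ∈ l, a ∈ S}.Finite := by
  have : Finite S := hS.to_subtype
  have h1 : {l : List S | l.length ≤ m}.Finite := List.finite_length_le _ _
  refine (h1.image (fun l => l.map Subtype.val)).subset ?_
  intro l hl
  refine ⟨l.pmap (fun a h => (⟨a, h⟩ : S)) hl.2, ?_, ?_⟩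
  · rw [Set.mem_ofPred_eq, List.length_pmap]; exact hl.1
  · simp only [List.map_pmap]
    exact List.pmap_eq_self.2 (by simp)

/-- finitely many polynomials are uniformly bounded on a disc -/
theorem exists_bound {α : Type*} {S : Set α} (hS : S.Finite) (g : α → ℤ[X]) (R : ℝ) :
    ∃ C : ℝ, 0 < C ∧ ∀ a ∈ S, ∀ z : ℂ, ‖z‖ ≤ R → ‖aeval z (g a)‖ ≤ C := by
  set f : α → ℝ := fun a => ∑ i ∈ (g a).support, |((g a).coeff i : ℝ)| * R ^ i with hf
  obtain ⟨C, hC⟩ := (hS.image f).bddAbove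
  refine ⟨max C 1, lt_of_lt_of_le one_pos (le_max_right _ _), fun a ha z hz => ?_⟩
  exact (EV.norm_aeval_le _ hz).trans ((hC ⟨a, ha, rfl⟩).trans (le_max_left _ _))

end Pool.Agent.Helper29.EV2
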