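import Pool.Agent.Helper29.EV2.Rows

/-!
# EV2, R12: the tail bound for all words of rows with a bounded number of maxima
-/

set_option autoImplicit false

namespace Pool.Agent.Helper29.RT

open Polynomial Pool.Agent.Helper85.Exp Pool.Agent.Helper60.EV2 Pool.Agent.Helper27.EV2

theorem exists_s (z : ℂ) : ∃ s : ℂ, s ≠ 0 ∧ s⁻¹ - s = z := by
  obtain ⟨d, hd⟩ := IsAlgClosed.exists_pow_nat_eq (z ^ 2 + 4) (n := 2) (by norm_num)
  have h1 : ((-z + d) / 2) ^ 2 + z * ((-z + d) / 2) - 1 = 0 := by
    linear_combination (1 / 4) * hd
  have h2 : (-z + d) / 2 ≠ 0 := by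
    intro h
    rw [h] at h1
    norm_num at h1
  refine ⟨(-z + d) / 2, h2, ?_⟩
  rw [inv_eq_one_div, sub_eq_iff_eq_add, div_eq_iff h2]
  linear_combination -h1

section

variable {nab : ∀ (W : Word) (hW : Ok W), Dg (shadow W hW) → ℤ[X]}
  (hn : ∀ (W : Word) (hW : Ok W), W ≠ [] → Cs (nab W hW))
  (form : ∀ (W : Word) (hW : Ok W), W ≠ [] → ∀ f : Dg (shadow W hW) → ℤ[X], Cs f →
    ∀ (D : Dg (shadow W hW)) (s : ℂ), s ≠ 0 →
    aeval (s⁻¹ - s) (f D) = s ^ (w0 W - wr D) * (1 - Qm W (s ^ 2) (s⁻¹ ^ 2) (stat D)).det)
include hn form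

theorem nab_eq {W W' : Word} (hW : Ok W) (hW' : Ok W') (hne : W ≠ []) (hne' : W' ≠ [])
    (h : es W = es W') (D : Dg (shadow W hW)) (D' : Dg (shadow W' hW')) (hwr : wr D = wr D')
    (hF : ∀ t ti : ℂ, t * ti = 1 → ∀ r < W.length, ∀ u : ℕ → ℂ,
      frun t ti (stat D r) (row W r).w u (row W r).w.length =
        frun t ti (stat D' r) (row W' r).w u (row W' r).w.length) (z : ℂ) :
    aeval z (nab W hW D) = aeval z (nab W' hW' D') := by
  obtain ⟨s, hs, rfl⟩ := exists_s z
  rw [form W hW hne _ (hn W hW hne) D s hs, form W' hW' hne' _ (hn W' hW' hne') D' s hs, hwr,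
    w0_eq h, det_eq h (hF (s ^ 2) (s⁻¹ ^ 2) (by rw [← mul_pow, mul_inv_cancel₀ hs, one_pow]))]

variable (wra : ∀ (W : Word) (hW : Ok W), wr (allPos (shadow W hW)) = crossings W)
include wra

open Classical in
/-- the value of the positive diagram -/
noncomputable def val (nab : ∀ (W : Word) (hW : Ok W), Dg (shadow W hW) → ℤ[X]) (z : ℂ)
    (W : Word) : ℂ := if h : Ok W then aeval z (nab W h (allPos _)) else 0

theorem rel_row {W₁ W₂ : Word} {e : Ext} (h0 : Ok (Wd W₁ e W₂ [])) {n : ℕ}
    (hlt : ∀ k, okE (es W₁ ++ e :: es W₂) W₁.length k → k < n) (z : ℂ) :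
    Helper29.EV2.Rel n (okE (es W₁ ++ e :: es W₂) W₁.length) z
      (fun w => val nab z (Wd W₁ e W₂ w)) := by
  set ok := okE (es W₁ ++ e :: es W₂) W₁.length with hok
  have hOk : ∀ w : List ℕ, (∀ k ∈ w, ok k) → Ok (Wd W₁ e W₂ w) := fun w hw => ok_Wd h0 hw
  have hlen : ∀ w, (Wd W₁ e W₂ w).length = W₁.length + 1 + W₂.length := length_Wd
  -- comparison of two positive words
  have cmp : ∀ w w' : List ℕ, (hw : ∀ k ∈ w, ok k) → (hw' : ∀ k ∈ w', ok k) → w.length = w'.length →
      (∀ (t ti : ℂ) (u : ℕ → ℂ), FR t ti (fun _ => .pos) w u = FR t ti (fun _ => .pos) w' u) →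
      val nab z (Wd W₁ e W₂ w) = val nab z (Wd W₁ e W₂ w') := by
    intro w w' hw hw' hl hF
    unfold val
    rw [dif_pos (hOk w hw), dif_pos (hOk w' hw')]
    refine nab_eq hn form (hOk w hw) (hOk w' hw') (ne_nil_Wd w) (ne_nil_Wd w')
      (by rw [es_Wd, es_Wd]) _ _ (by rw [wra, wra, crossings_Wd, crossings_Wd, hl]) ?_ z
    intro t ti _ r _ u
    rw [stat_allPos, stat_allPos]
    by_cases h1 : r = W₁.length
    · subst h1
      rw [row_Wd, row_Wd]
      exact hF t ti u
    · rw [row_Wd_ne w w' h1]
  refine ⟨hlt, ?_, ?_, ?_⟩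
  · intro x y a b hx hy ha hb hab
    refine cmp _ _ ?_ ?_ (by simp) fun t ti u => run_comm x y hab
    · intro k hk
      simp only [List.mem_append, List.mem_cons] at hk
      rcases hk with hk | rfl | rfl | hk
      exacts [hx k hk, ha, hb, hy k hk]
    · intro k hk
      simp only [List.mem_append, List.mem_cons] at hk
      rcases hk with hk | rfl | rfl | hk
      exacts [hx k hk, hb, ha, hy k hk]
  · intro x y j hx hy hj hj1
    refine cmp _ _ ?_ ?_ (by simp) fun t ti u => run_braid x y j
    · intro k hk
      simp only [List.mem_append, List.mem_cons] at hk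
      rcases hk with hk | rfl | rfl | rfl | hk
      exacts [hx k hk, hj, hj1, hj, hy k hk]
    · intro k hk
      simp only [List.mem_append, List.mem_cons] at hk
      rcases hk with hk | rfl | rfl | rfl | hk
      exacts [hx k hk, hj1, hj, hj1, hy k hk]
  · intro x y j hx hy hj
    have hw2 : ∀ k ∈ x ++ j :: j :: y, ok k := by
      intro k hk
      simp only [List.mem_append, List.mem_cons] at hk
      rcases hk with hk | rfl | rfl | hk
      exacts [hx k hk, hj, hj, hy k hk]
    have hw1 : ∀ k ∈ x ++ j :: y, ok k := by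
      intro k hk
      simp only [List.mem_append, List.mem_cons] at hk
      rcases hk with hk | rfl | hk
      exacts [hx k hk, hj, hy k hk]
    have hw0 : ∀ k ∈ x ++ y, ok k := by
      intro k hk
      rcases List.mem_append.1 hk with hk | hk
      exacts [hx k hk, hy k hk]
    unfold val
    rw [dif_pos (hOk _ hw2), dif_pos (hOk _ hw1), dif_pos (hOk _ hw0)]
    have hrw : row (Wd W₁ e W₂ (x ++ j :: j :: y)) W₁.length = ⟨e, x ++ j :: j :: y⟩ := row_Wd _
    have hr : W₁.length < (Wd W₁ e W₂ (x ++ j :: j :: y)).length := by rw [hlen]; omega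
    have hi : x.length + 1 < (row (Wd W₁ e W₂ (x ++ j :: j :: y)) W₁.length).w.length := by
      rw [hrw]; simp
    have hsk := (hn _ (hOk _ hw2) (ne_nil_Wd _)).skein (allPos _) (pt (hOk _ hw2) hr hi)
      (op_ne (hOk _ hw2) hr hi)
    rw [upd_pos] at hsk
    have hneg := nab_eq hn form (hOk _ hw2) (hOk _ hw0) (ne_nil_Wd _) (ne_nil_Wd _)
      (by rw [es_Wd, es_Wd]) ((allPos _).upd (pt (hOk _ hw2) hr hi) .neg) (allPos _)
      (by
        rw [wr_upd', wra, wra, crossings_Wd, crossings_Wd]
        simp only [List.length_append, List.length_cons, sgn]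
        push_cast
        ring)
      (by
        intro t ti hti r _ u
        rw [stat_upd, stat_allPos]
        by_cases h1 : r = W₁.length
        · subst h1
          rw [hrw, row_Wd]
          have := run_neg (u := u) hti x y j
          simp only [true_and]
          exact this
        · rw [row_Wd_ne _ (x ++ y) h1]
          simp only [h1, false_and, if_false]) z
    have hsm := nab_eq hn form (hOk _ hw2) (hOk _ hw1) (ne_nil_Wd _) (ne_nil_Wd _)
      (by rw [es_Wd, es_Wd]) ((allPos _).upd (pt (hOk _ hw2) hr hi) .smooth) (allPos _)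
      (by
        rw [wr_upd', wra, wra, crossings_Wd, crossings_Wd]
        simp only [List.length_append, List.length_cons, sgn]
        push_cast
        ring)
      (by
        intro t ti hti r _ u
        rw [stat_upd, stat_allPos]
        by_cases h1 : r = W₁.length
        · subst h1
          rw [hrw, row_Wd]
          have := run_smooth (t := t) (ti := ti) (u := u) x y j
          simp only [true_and]
          exact this
        · rw [row_Wd_ne _ (x ++ j :: y) h1]
          simp only [h1, false_and, if_false]) z
    rw [← hneg, ← hsm, sub_eq_iff_eq_add.1 hsk, map_add, map_mul, aeval_X]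
    ring

end

/-! ### Skeleton and words -/

/-- the word with the extrema `E` and the words `ws` -/
def zp (E : List Ext) (ws : List (List ℕ)) : Word := List.zipWith Row.mk E ws

/-- the possible letters of the rows -/
def oks (E : List Ext) : List (ℕ → Prop) := (List.range E.length).map (okE E)

theorem es_zp : ∀ (E : List Ext) (ws : List (List ℕ)), ws.length = E.length → es (zp E ws) = E
  | [], _, _ => rfl
  | e :: E, [], h => by simp at h
  | e :: E, w :: ws, h => by
    have := es_zp E ws (by simpa using h)
    unfold es zp at this ⊢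
    rw [List.zipWith_cons_cons, List.map_cons, this]

theorem ws_zp : ∀ (E : List Ext) (ws : List (List ℕ)), ws.length = E.length →
    (zp E ws).map Row.w = ws
  | [], [], _ => rfl
  | [], w :: ws, h => by simp at h
  | e :: E, [], h => by simp at h
  | e :: E, w :: ws, h => by
    have := ws_zp E ws (by simpa using h)
    unfold zp at this ⊢
    rw [List.zipWith_cons_cons, List.map_cons, this]

theorem zp_es (W : Word) : zp (es W) (W.map Row.w) = W := by
  induction W with
  | nil => rfl
  | cons x W ih =>
    unfold zp es at ih ⊢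
    rw [List.map_cons, List.map_cons, List.zipWith_cons_cons, ih]

theorem zp_append (E₁ : List Ext) (e : Ext) (E₂ : List Ext) (w₁ : List (List ℕ)) (w : List ℕ)
    (w₂ : List (List ℕ)) (h : w₁.length = E₁.length) :
    zp (E₁ ++ e :: E₂) (w₁ ++ w :: w₂) = Wd (zp E₁ w₁) e (zp E₂ w₂) w := by
  unfold zp Wd
  rw [List.zipWith_append (by omega), List.zipWith_cons_cons]

theorem fit_length {E : List Ext} {ws : List (List ℕ)} (h : Helper29.EV2.Fit (oks E) ws) :
    ws.length = E.length := by
  have := List.Forall₂.length_eq h
  simpa [oks] using this.symm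

theorem fit_iff {E : List Ext} {ws : List (List ℕ)} : Helper29.EV2.Fit (oks E) ws ↔
    ws.length = E.length ∧ ∀ r < E.length, ∀ k ∈ ws.getD r [], okE E r k := by
  unfold Helper29.EV2.Fit
  rw [List.forall₂_iff_get]
  constructor
  · rintro ⟨h1, h2⟩
    have h1' : ws.length = E.length := by simpa [oks] using h1.symm
    refine ⟨h1', fun r hr k hk => ?_⟩
    rw [List.getD_eq_getElem _ _ (by omega)] at hk
    have := h2 r (by simpa [oks] using hr) (by omega) k (by simpa using hk)
    simpa [oks] using this
  · rintro ⟨h1, h2⟩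
    refine ⟨by simp [oks, h1], fun r hr hr' k hk => ?_⟩
    have := h2 r (by omega) k (by
      rw [List.getD_eq_getElem _ _ hr']
      simpa using hk)
    simpa [oks] using this

theorem row_w (W : Word) (r : ℕ) (hr : r < W.length) : (row W r).w = (W.map Row.w).getD r [] := by
  unfold row
  rw [List.getD_eq_getElem _ _ hr, List.getD_eq_getElem _ _ (by simpa using hr), List.getElem_map]

theorem ok_zp {E : List Ext} (hE : SkOk E) {ws : List (List ℕ)}
    (h : Helper29.EV2.Fit (oks E) ws) : Ok (zp E ws) := by
  rw [fit_iff] at h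
  rw [ok_iff, es_zp E ws h.1]
  have hlen : (zp E ws).length = E.length := by
    have := congrArg List.length (es_zp E ws h.1)
    simpa [es] using this
  refine ⟨hE, fun r hr k hk => h.2 r (by omega) k ?_⟩
  rwa [row_w _ _ hr, ws_zp E ws h.1] at hk

theorem fit_of_ok {W : Word} (hW : Ok W) : Helper29.EV2.Fit (oks (es W)) (W.map Row.w) := by
  rw [fit_iff]
  have hl : (es W).length = W.length := by simp [es]
  refine ⟨by simp [es], fun r hr k hk => ((ok_iff W).1 hW).2 r (by omega) k ?_⟩
  rwa [row_w W r (by omega)]

/-! ### Counting -/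

/-- is it a minimum -/
def isMn (e : Ext) : Bool := !isMx e

theorem act_le (e : Ext) (l : List Bool) :
    (e.act l).length ≤ l.length + 2 * ([e].filter isMx).length := by
  cases e with
  | mx k d =>
    have h : ([Ext.mx k d].filter isMx).length = 1 := rfl
    simp only [Ext.act, List.length_append, List.length_take, List.length_cons, List.length_drop]
    omega
  | mn k =>
    simp only [Ext.act, List.length_append, List.length_take, List.length_drop]
    omega

theorem fold_le (E : List Ext) : ∀ l : List Bool,
    (E.foldl (fun l e => e.act l) l).length ≤ l.length + 2 * (E.filter isMx).length := by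
  induction E with
  | nil => intro l; simp
  | cons e E ih =>
    intro l
    rw [List.foldl_cons]
    have h1 := ih (e.act l)
    have h2 := act_le e l
    have h3 : ((e :: E).filter isMx).length = ([e].filter isMx).length + (E.filter isMx).length := by
      rw [← List.length_append, ← List.filter_append]; rfl
    omega

theorem filter_take_le (E : List Ext) (r : ℕ) :
    ((E.take r).filter isMx).length ≤ (E.filter isMx).length := by
  have h : E.filter isMx = (E.take r).filter isMx ++ (E.drop r).filter isMx := by
    rw [← List.filter_append, List.take_append_drop]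
  rw [h, List.length_append]
  omega

theorem okE_lt {E : List Ext} {r k : ℕ} (h : okE E r k) : k < 2 * (E.filter isMx).length := by
  have h1 := h.2
  have h2 := fold_le (E.take (r + 1)) []
  have h3 := filter_take_le E (r + 1)
  have h4 : k + 1 < ((E.take (r + 1)).foldl (fun l e => e.act l) []).length := by
    by_contra hcon
    rw [List.getElem?_eq_none (by omega)] at h1
    exact absurd h1 (by simp)
  simp only [List.length_nil] at h2
  omega

theorem act_eq {e : Ext} {l : List Bool} (h : e.Ok l) :
    (e.act l).length + 2 * ([e].filter isMn).length = l.length + 2 * ([e].filter isMx).length := by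
  cases e with
  | mx k d =>
    have hk : k ≤ l.length := h
    have h1 : ([Ext.mx k d].filter isMx).length = 1 := rfl
    have h2 : ([Ext.mx k d].filter isMn).length = 0 := rfl
    rw [h1, h2]
    simp only [Ext.act, List.length_append, List.length_take, List.length_cons, List.length_drop]
    omega
  | mn k =>
    obtain ⟨d, h1, h2⟩ := h
    have hk : k + 1 < l.length := by
      by_contra hcon
      rw [List.getElem?_eq_none (by omega)] at h2
      exact absurd h2 (by simp)
    have h3 : ([Ext.mn k].filter isMx).length = 0 := rfl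
    have h4 : ([Ext.mn k].filter isMn).length = 1 := rfl
    rw [h3, h4]
    simp only [Ext.act, List.length_append, List.length_take, List.length_drop]
    omega

theorem sk_len {E : List Ext} (hE : SkOk E) : ∀ r ≤ E.length,
    ((E.take r).foldl (fun l e => e.act l) []).length + 2 * ((E.take r).filter isMn).length =
      2 * ((E.take r).filter isMx).length := by
  intro r
  induction r with
  | zero => intro _; simp
  | succ r ih =>
    intro hr
    have h1 := ih (by omega)
    have h2 := hE.ext r (by omega)
    have h3 := act_eq h2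
    have e : E.take (r + 1) = E.take r ++ [E.getD r (.mn 0)] := by
      rw [List.take_add_one, List.getElem?_eq_getElem (by omega), List.getD_eq_getElem _ _ (by omega)]
      rfl
    rw [e, List.foldl_append, List.filter_append, List.filter_append, List.length_append,
      List.length_append, List.foldl_cons, List.foldl_nil]
    omega

theorem filter_add (E : List Ext) : (E.filter isMx).length + (E.filter isMn).length = E.length := by
  induction E with
  | nil => rfl
  | cons e E ih =>
    have h1 : ((e :: E).filter isMx).length = ([e].filter isMx).length + (E.filter isMx).length := by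
      rw [← List.length_append, ← List.filter_append]; rfl
    have h2 : ((e :: E).filter isMn).length = ([e].filter isMn).length + (E.filter isMn).length := by
      rw [← List.length_append, ← List.filter_append]; rfl
    have h3 : ([e].filter isMx).length + ([e].filter isMn).length = 1 := by cases e <;> rfl
    rw [h1, h2, List.length_cons]
    omega

theorem sk_length {E : List Ext} (hE : SkOk E) : E.length = 2 * (E.filter isMx).length := by
  have h1 := sk_len hE E.length le_rfl
  rw [hE.closed, List.take_length] at h1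
  have h2 := filter_add E
  simp only [List.length_nil] at h1
  omega

/-- the words with at most `b` maxima and short rows are finitely many -/
theorem finite_short (b m : ℕ) :
    {W : Word | Ok W ∧ maxima W ≤ b ∧ ∀ x ∈ W, x.w.length ≤ m}.Finite := by
  have hE : {e : Ext | ∃ k ≤ 2 * b, e = .mx k true ∨ e = .mx k false ∨ e = .mn k}.Finite := by
    have h1 : (Set.Iic (2 * b)).Finite := Set.finite_Iic _
    refine (((h1.image (fun k => Ext.mx k true)).union (h1.image (fun k => Ext.mx k false))).union
      (h1.image (fun k => Ext.mn k))).subset ?_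
    rintro e ⟨k, hk, rfl | rfl | rfl⟩
    · exact Or.inl (Or.inl ⟨k, hk, rfl⟩)
    · exact Or.inl (Or.inr ⟨k, hk, rfl⟩)
    · exact Or.inr ⟨k, hk, rfl⟩
  have hS := (hE.prod (Helper29.EV.finite_words (2 * b) m)).image (fun q => Row.mk q.1 q.2)
  refine (Helper29.EV2.finite_lists hS (2 * b)).subset ?_
  rintro W ⟨h1, h2, h3⟩
  have h4 := (ok_iff W).1 h1
  have h5 := sk_length h4.1
  have hl : (es W).length = W.length := by simp [es]
  rw [← maxima_es] at h5
  refine ⟨by omega, fun x hx => ?_⟩
  obtain ⟨r, hr, rfl⟩ := List.getElem_of_mem hx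
  have hrow : row W r = W[r] := List.getD_eq_getElem _ _ hr
  have hw : ∀ r', (lv W r').length ≤ 2 * b := by
    intro r'
    have q1 := fold_le ((es W).take r') []
    have q2 := filter_take_le (es W) r'
    rw [← maxima_es] at q2
    rw [← lv_es] at q1
    simp only [List.length_nil] at q1
    omega
  refine ⟨(W[r].e, W[r].w), ⟨?_, h3 _ hx, ?_⟩, rfl⟩
  · have q1 := h1.ext r hr
    rw [hrow] at q1
    have q2 := hw r
    change ∃ k ≤ 2 * b, W[r].e = .mx k true ∨ W[r].e = .mx k false ∨ W[r].e = .mn k
    generalize W[r].e = e at q1 ⊢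
    cases e with
    | mx k d =>
      have q3 : k ≤ (lv W r).length := q1
      refine ⟨k, by omega, ?_⟩
      cases d
      · right; left; rfl
      · left; rfl
    | mn k =>
      obtain ⟨d, q3, q4⟩ := q1
      have hk : k + 1 < (lv W r).length := by
        by_contra hcon
        rw [List.getElem?_eq_none (by omega)] at q4
        exact absurd q4 (by simp)
      exact ⟨k, by omega, Or.inr (Or.inr rfl)⟩
  · intro k hk
    have q1 := h4.2 r hr k (by rw [hrow]; exact hk)
    have q2 := okE_lt q1
    rw [← maxima_es] at q2
    omega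

/-! ### The tail bound -/

/-- **R12.** -/
theorem h3_of (b : ℕ) (nab : ∀ (W : Word) (hW : Ok W), Dg (shadow W hW) → ℤ[X])
    (hn : ∀ (W : Word) (hW : Ok W), W ≠ [] → Cs (nab W hW))
    (form : ∀ (W : Word) (hW : Ok W), W ≠ [] → ∀ f : Dg (shadow W hW) → ℤ[X], Cs f →
      ∀ (D : Dg (shadow W hW)) (s : ℂ), s ≠ 0 →
      aeval (s⁻¹ - s) (f D) = s ^ (w0 W - wr D) * (1 - Qm W (s ^ 2) (s⁻¹ ^ 2) (stat D)).det)
    (wra : ∀ (W : Word) (hW : Ok W), wr (allPos (shadow W hW)) = crossings W)
    (r₀ R : ℝ) (hr₀ : 0 < r₀) :
    ∃ c : ℝ, 0 < c ∧ ∃ C : ℝ, ∀ (W : Word) (hW : Ok W), W ≠ [] → maxima W ≤ b → ∀ z : ℂ, r₀ ≤ ‖z‖ → ‖z‖ ≤ R →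
      ∀ a : ℝ, 0 < a → a ^ 2 = ‖z‖ * a + 1 → ‖aeval z (nab W hW (allPos _))‖ ≤
        C * a ^ (crossings W) * Real.exp (-(c * crossings W * (1 - Real.cos (2 * z.arg)))) := by
  classical
  obtain ⟨c, hc, C, hC, H⟩ := Helper29.EV2.multi_tail (2 * b) (R := R) hr₀
  obtain ⟨M, hM, HM⟩ := Helper29.EV2.exists_bound
    (finite_short b (2 * b * (2 * b + 1) / 2))
    (fun W => if h : Ok W then nab W h (allPos _) else 0) R
  refine ⟨c, hc, (max C 1) ^ (2 * b) * M, ?_⟩
  intro W hW _ hmax z hz1 hz2 a ha h2
  have hz0 : z ≠ 0 := by
    rintro rfl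
    rw [norm_zero] at hz1
    linarith
  have hE := ((ok_iff W).1 hW).1
  have hmx : ((es W).filter isMx).length ≤ b := by rw [← maxima_es]; exact hmax
  have h1 := H z hz1 hz2 a ha h2 (oks (es W)) (fun ws => val nab z (zp (es W) ws)) ?_ M ?_
    (W.map Row.w) (fit_of_ok hW)
  · have e1 : Helper29.EV2.tot (W.map Row.w) = crossings W := by
      unfold Helper29.EV2.tot crossings
      rw [List.map_map]
      rfl
    have e2 : (oks (es W)).length = W.length := by simp [oks, es]
    have e3 : W.length ≤ 2 * b := by
      have := sk_length hE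
      have hl : (es W).length = W.length := by simp [es]
      omega
    beta_reduce at h1
    rw [zp_es, val, dif_pos hW, e1, e2, ← Helper29.EV2.cos_two_arg z hz0] at h1
    refine h1.trans ?_
    have q1 : C ^ W.length ≤ (max C 1) ^ (2 * b) :=
      (pow_le_pow_left₀ hC.le (le_max_left _ _) _).trans
        (pow_le_pow_right₀ (le_max_right _ _) e3)
    have q2 : 0 ≤ a ^ crossings W *
        Real.exp (-(c * crossings W * (1 - Real.cos (2 * z.arg)))) * M := by positivity
    have := mul_le_mul_of_nonneg_right q1 q2
    calc C ^ W.length * a ^ crossings W *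
          Real.exp (-(c * crossings W * (1 - Real.cos (2 * z.arg)))) * M
        = C ^ W.length * (a ^ crossings W *
          Real.exp (-(c * crossings W * (1 - Real.cos (2 * z.arg)))) * M) := by ring
      _ ≤ _ := this
      _ = _ := by ring
  · -- the relations
    intro o₁ ok o₂ w₁ w₂ ho hw₁ hw₂
    have hlen : (oks (es W)).length = (es W).length := by simp [oks]
    have hl₁ : o₁.length < (es W).length := by
      rw [← hlen, ho, List.length_append, List.length_cons]; omega
    have hok : ok = okE (es W) o₁.length := by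
      have q1 : (oks (es W)).getD o₁.length (fun _ => False) = ok := by
        rw [ho, List.getD_append_right _ _ _ _ le_rfl, Nat.sub_self]; rfl
      rw [← q1, List.getD_eq_getElem _ _ (by omega)]
      simp [oks]
    have hW1 : w₁.length = o₁.length := (List.Forall₂.length_eq hw₁).symm
    have hW2 : w₂.length = o₂.length := (List.Forall₂.length_eq hw₂).symm
    obtain ⟨E₁, e, E₂, hsplit, hE₁⟩ : ∃ E₁ e E₂, es W = E₁ ++ e :: E₂ ∧ E₁.length = o₁.length := by
      refine ⟨(es W).take o₁.length, (es W)[o₁.length], (es W).drop (o₁.length + 1), ?_, ?_⟩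
      · rw [List.getElem_cons_drop, List.take_append_drop]
      · rw [List.length_take]; omega
    have hE₂ : E₂.length = o₂.length := by
      have q1 := congrArg List.length hsplit
      have q2 := congrArg List.length ho
      rw [List.length_append, List.length_cons] at q1 q2
      omega
    have hes₁ : es (zp E₁ w₁) = E₁ := es_zp _ _ (by omega)
    have hes₂ : es (zp E₂ w₂) = E₂ := es_zp _ _ (by omega)
    have hzl : (zp E₁ w₁).length = o₁.length := by
      have := congrArg List.length hes₁
      simp only [es, List.length_map] at this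
      omega
    have hfit : Helper29.EV2.Fit (oks (es W)) (w₁ ++ [] :: w₂) := by
      rw [ho]
      exact List.rel_append hw₁ (List.Forall₂.cons (by simp) hw₂)
    have h0 : Ok (Wd (zp E₁ w₁) e (zp E₂ w₂) []) := by
      rw [← zp_append E₁ e E₂ w₁ [] w₂ (by omega), ← hsplit]
      exact ok_zp hE hfit
    have hrel := rel_row hn form wra h0 (n := 2 * b) (by
      intro k hk
      rw [hes₁, hes₂, ← hsplit] at hk
      have := okE_lt hk
      omega) z
    rw [hes₁, hes₂, ← hsplit, hzl, ← hok] at hrel
    have e1 : (fun w => val nab z (zp (es W) (w₁ ++ w :: w₂))) =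
        fun w => val nab z (Wd (zp E₁ w₁) e (zp E₂ w₂) w) := by
      funext w
      rw [hsplit, zp_append E₁ e E₂ w₁ w w₂ (by omega)]
    show Helper29.EV2.Rel _ _ _ (fun w => val nab z (zp (es W) (w₁ ++ w :: w₂)))
    rw [e1]
    exact hrel
  · -- the short words
    intro us hus hshort
    have hok := ok_zp hE hus
    have hl := fit_length hus
    have h3 := HM (zp (es W) us) ⟨hok, ?_, ?_⟩ z hz2
    · beta_reduce at h3
      rw [dif_pos hok] at h3
      rw [val, dif_pos hok]
      exact h3
    · rw [maxima_es, es_zp _ _ hl]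
      exact hmx
    · intro x hx
      refine hshort _ ?_
      rw [← ws_zp (es W) us hl]
      exact List.mem_map_of_mem hx

end Pool.Agent.Helper29.RT
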