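import Pool.Agent.Helper29.EV2.H3
import Pool.Agent.Helper49.EV2.Row

/-!
# EV2, R12 from R7 only
-/

set_option autoImplicit false

namespace Pool.Agent.Helper29.RT

open Polynomial Pool.Agent.Helper85.Exp Pool.Agent.Helper60.EV2 Pool.Agent.Helper27.EV2

/-- **R12**, from R7. -/
theorem h3' (form : ∀ (W : Word) (hW : Ok W), W ≠ [] → ∀ f : Dg (shadow W hW) → ℤ[X], Cs f →
      ∀ (D : Dg (shadow W hW)) (s : ℂ), s ≠ 0 →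
      aeval (s⁻¹ - s) (f D) = s ^ (w0 W - wr D) * (1 - Qm W (s ^ 2) (s⁻¹ ^ 2) (stat D)).det)
    (b : ℕ) (nab : ∀ (W : Word) (hW : Ok W), Dg (shadow W hW) → ℤ[X])
    (h : ∀ (W : Word) (hW : Ok W), W ≠ [] → Cs (nab W hW)) (r₀ R : ℝ) (hr₀ : 0 < r₀) (_ : 0 < R) :
    ∃ c : ℝ, 0 < c ∧ ∃ C : ℝ, ∀ (W : Word) (hW : Ok W), W ≠ [] → maxima W ≤ b → ∀ z : ℂ, r₀ ≤ ‖z‖ → ‖z‖ ≤ R →
      ∀ a : ℝ, 0 < a → a ^ 2 = ‖z‖ * a + 1 → ‖aeval z (nab W hW (allPos _))‖ ≤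
        C * a ^ (crossings W) * Real.exp (-(c * crossings W * (1 - Real.cos (2 * z.arg)))) :=
  h3_of b nab h form (fun _ hW => Helper49.EV2.wr_allPos hW) r₀ R hr₀

end Pool.Agent.Helper29.RT
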