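import Pool.Agent.Helper29.EV2.Fin
import Pool.Agent.Helper60.Burau.Adj

/-!
# The tail bound for label words (virtual braids in boxes)

`Um t i j`: a positive crossing between the strands with the labels `i`, `j`, acting on values of the
labels: `(u_i, u_j) ↦ (t u_j, u_i + (1 - t) u_j)`. `Qw t w`: a word of pairs, the first letter acts first.
A `Box` is an injective family of labels `e 0, …, e k`; the letter `a < k` is the pair `(e a, e (a + 1))`.
`lab_tail`: `‖s ^ (-L) det (A - E Q)‖ ≤ C a ^ L exp (- c L (1 - cos (2 arg z)))`, `z = 1/s - s`, `t = s ^ 2`, for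
all words in at most `K` boxes with `L` letters and all matrices `A`, `E` with entries of norm at most `2`, `1`.
-/

set_option autoImplicit false

namespace Pool.Agent.Helper29.Lab

open Matrix

variable {ι R : Type} [Fintype ι] [DecidableEq ι] [CommRing R]

/-- the rank one part -/
def Rm (t : R) (i j : ι) : Matrix ι ι R :=
  vecMulVec (Pi.single j 1 - Pi.single i 1) (Pi.single i 1 - Pi.single j t)

/-- one crossing -/
def Um (t : R) (i j : ι) : Matrix ι ι R := 1 + Rm t i j

/-- a word -/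
def Qw (t : R) : List (ι × ι) → Matrix ι ι R
  | [] => 1
  | p :: w => Qw t w * Um t p.1 p.2

theorem Qw_append (t : R) (x y : List (ι × ι)) : Qw t (x ++ y) = Qw t y * Qw t x := by
  induction x with
  | nil => simp [Qw]
  | cons p x ih => rw [List.cons_append, Qw, Qw, ih, Matrix.mul_assoc]

omit [DecidableEq ι] in
theorem vv_mul (x y x' y' : ι → R) :
    vecMulVec x y * vecMulVec x' y' = (y ⬝ᵥ x') • vecMulVec x y' := by
  ext a b
  simp only [Matrix.mul_apply, vecMulVec_apply, Matrix.smul_apply, smul_eq_mul, dotProduct,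
    Finset.sum_mul]
  exact Finset.sum_congr rfl fun c _ => by ring

theorem dot (t : R) (i j k l : ι) :
    (Pi.single i 1 - Pi.single j t : ι → R) ⬝ᵥ (Pi.single l 1 - Pi.single k 1) =
      (if i = l then 1 else 0) - (if i = k then 1 else 0) - (if j = l then t else 0)
        + (if j = k then t else 0) := by
  rw [sub_dotProduct, dotProduct_sub, dotProduct_sub]
  simp only [single_dotProduct, Pi.single_apply, one_mul]
  split_ifs <;> simp

theorem R_sq (t : R) {i j : ι} (h : i ≠ j) : Rm t i j * Rm t i j = (-(1 + t)) • Rm t i j := by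
  unfold Rm
  rw [vv_mul, dot, if_neg h, if_pos rfl, if_pos rfl, if_neg h.symm]
  congr 1
  ring

theorem R_far (t : R) {i j k l : ι} (h1 : i ≠ k) (h2 : i ≠ l) (h3 : j ≠ k) (h4 : j ≠ l) :
    Rm t i j * Rm t k l = 0 := by
  unfold Rm
  rw [vv_mul, dot, if_neg h1, if_neg h2, if_neg h3, if_neg h4]
  simp

theorem U_comm (t : R) {i j k l : ι} (h1 : i ≠ k) (h2 : i ≠ l) (h3 : j ≠ k) (h4 : j ≠ l) :
    Um t i j * Um t k l = Um t k l * Um t i j := by
  unfold Um
  have e1 := R_far t h1 h2 h3 h4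
  have e2 := R_far t h1.symm h3.symm h2.symm h4.symm
  rw [Matrix.add_mul, Matrix.mul_add, Matrix.mul_add, Matrix.add_mul, Matrix.mul_add, Matrix.mul_add,
    e1, e2]
  simp only [Matrix.mul_one, Matrix.one_mul]
  abel

theorem R_udu (t : R) {i j k : ι} (h1 : i ≠ j) (h2 : j ≠ k) (h3 : i ≠ k) :
    Rm t i j * Rm t j k * Rm t i j = t • Rm t i j ∧ Rm t j k * Rm t i j * Rm t j k = t • Rm t j k := by
  unfold Rm
  constructor
  · rw [vv_mul, Matrix.smul_mul, vv_mul, dot, dot, if_neg h3, if_neg h1, if_neg h2, if_pos rfl,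
      if_pos rfl, if_neg h1.symm, if_neg h2.symm, if_neg h3.symm, smul_smul]
    congr 1
    ring
  · rw [vv_mul, Matrix.smul_mul, vv_mul, dot, dot, if_pos rfl, if_neg h1.symm, if_neg h2.symm,
      if_neg h3.symm, if_neg h3, if_neg h1, if_neg h2, if_pos rfl, smul_smul]
    congr 1
    ring

theorem U_braid (t : R) {i j k : ι} (h1 : i ≠ j) (h2 : j ≠ k) (h3 : i ≠ k) :
    Um t i j * Um t j k * Um t i j = Um t j k * Um t i j * Um t j k := by
  obtain ⟨e1, e2⟩ := R_udu t h1 h2 h3
  have e3 := R_sq t h1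
  have e4 := R_sq t h2
  unfold Um
  set P := Rm t i j
  set Q := Rm t j k
  have l1 : (1 + P) * (1 + Q) * (1 + P) = 1 + P + P + Q + P * P + P * Q + Q * P + P * Q * P := by
    noncomm_ring
  have l2 : (1 + Q) * (1 + P) * (1 + Q) = 1 + Q + Q + P + Q * Q + P * Q + Q * P + Q * P * Q := by
    noncomm_ring
  rw [l1, l2, e1, e2, e3, e4]
  simp only [neg_smul, add_smul, one_smul]
  abel

theorem U_quad (t : R) {i j : ι} (h : i ≠ j) :
    Um t i j * Um t i j = 1 + (1 - t) • Rm t i j := by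
  have e := R_sq t h
  unfold Um
  rw [Matrix.add_mul, Matrix.mul_add, Matrix.mul_add, e]
  simp only [Matrix.mul_one, Matrix.one_mul, neg_smul, add_smul, sub_smul, one_smul]
  abel

/-- the determinant is affine along the rank one part -/
theorem det_quad (t : R) {i j : ι} (h : i ≠ j) (A E X Y : Matrix ι ι R) :
    (A - E * (Y * (Um t i j * Um t i j) * X)).det =
      t * (A - E * (Y * X)).det + (1 - t) * (A - E * (Y * Um t i j * X)).det := by
  obtain ⟨D, hD⟩ := Helper60.Burau.det_rank_one (A - E * (Y * X))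
    (-((E * Y) *ᵥ (Pi.single j 1 - Pi.single i 1))) ((Pi.single i 1 - Pi.single j t) ᵥ* X)
  have key : ∀ c : R, A - E * (Y * (1 + c • Rm t i j) * X) =
      (A - E * (Y * X)) + c • vecMulVec (-((E * Y) *ᵥ (Pi.single j 1 - Pi.single i 1)))
        ((Pi.single i 1 - Pi.single j t) ᵥ* X) := by
    intro c
    have e1 : E * (Y * (1 + c • Rm t i j) * X) = E * (Y * X) + c • (E * Y * Rm t i j * X) := by
      rw [Matrix.mul_add, Matrix.add_mul, Matrix.mul_add, Matrix.mul_one, Matrix.mul_smul,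
        Matrix.smul_mul, Matrix.mul_smul]
      simp only [Matrix.mul_assoc]
    have e2 : E * Y * Rm t i j * X = vecMulVec ((E * Y) *ᵥ (Pi.single j 1 - Pi.single i 1))
        ((Pi.single i 1 - Pi.single j t) ᵥ* X) := by
      unfold Rm
      rw [Matrix.mul_vecMulVec, Matrix.vecMulVec_mul]
    rw [e1, e2, neg_vecMulVec, smul_neg]
    abel
  have h1 := hD (1 - t)
  have h2 := hD 1
  rw [← key, ← U_quad t h] at h1
  rw [← key, one_smul] at h2
  change (A - E * (Y * Um t i j * X)).det = _ at h2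
  rw [h1, h2]
  ring

/-! ### Boxes -/

/-- a box: an injective family of labels -/
structure Box (ι : Type) where
  e : ℕ → ι
  k : ℕ
  inj : ∀ a b, a ≤ k → b ≤ k → e a = e b → a = b

/-- the pairs of a word in a box -/
def Box.word (b : Box ι) (w : List ℕ) : List (ι × ι) := w.map fun a => (b.e a, b.e (a + 1))

/-- the words of all boxes -/
def full : List (Box ι) → List (List ℕ) → List (ι × ι)
  | b :: bs, w :: ws => b.word w ++ full bs ws
  | _, _ => []

/-- the value -/
noncomputable def Ph (A E : Matrix ι ι ℂ) (s : ℂ) (w : List (ι × ι)) : ℂ :=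
  (s⁻¹) ^ w.length * (A - E * Qw (s ^ 2) w).det

omit [Fintype ι] [DecidableEq ι] in
theorem Box.ne (b : Box ι) {x y : ℕ} (hx : x ≤ b.k) (hy : y ≤ b.k) (h : x ≠ y) : b.e x ≠ b.e y :=
  fun e => h (b.inj x y hx hy e)

omit [Fintype ι] [DecidableEq ι] in
theorem word_append (b : Box ι) (x y : List ℕ) : b.word (x ++ y) = b.word x ++ b.word y := by
  simp [Box.word]

omit [Fintype ι] [DecidableEq ι] in
theorem word_cons (b : Box ι) (a : ℕ) (y : List ℕ) :
    b.word (a :: y) = (b.e a, b.e (a + 1)) :: b.word y := rfl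

omit [Fintype ι] [DecidableEq ι] in
theorem word_length (b : Box ι) (x : List ℕ) : (b.word x).length = x.length := by
  simp [Box.word]

theorem rel_box (A E : Matrix ι ι ℂ) {s : ℂ} (hs : s ≠ 0) (b : Box ι) {n : ℕ} (hn : b.k ≤ n)
    (X Y : List (ι × ι)) :
    Helper29.EV2.Rel n (fun a => a < b.k) (s⁻¹ - s) (fun w => Ph A E s (X ++ (b.word w ++ Y))) := by
  have hQ : ∀ u : List (ι × ι), Qw (s ^ 2) (X ++ (u ++ Y)) =
      Qw (s ^ 2) Y * Qw (s ^ 2) u * Qw (s ^ 2) X := by
    intro u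
    rw [Qw_append, Qw_append]
  refine ⟨fun a ha => lt_of_lt_of_le ha hn, ?_, ?_, ?_⟩
  · intro x y a c _ _ ha hc hac
    unfold Ph
    rw [hQ, hQ]
    congr 1
    · simp [word_length]
    · simp only [word_append, word_cons, Qw_append, Qw]
      have e1 : ∀ A B C D : Matrix ι ι ℂ, A * B * C * D = A * (B * C) * D := by
        intro A B C D; simp only [Matrix.mul_assoc]
      rw [e1 _ (Um (s ^ 2) (b.e c) (b.e (c + 1))), e1 _ (Um (s ^ 2) (b.e a) (b.e (a + 1))),
        U_comm (s ^ 2) (i := b.e c) (j := b.e (c + 1)) (k := b.e a) (l := b.e (a + 1))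
          (b.ne (by omega) (by omega) (by omega)) (b.ne (by omega) (by omega) (by omega))
          (b.ne (by omega) (by omega) (by omega)) (b.ne (by omega) (by omega) (by omega))]
  · intro x y a _ _ ha ha1
    unfold Ph
    rw [hQ, hQ]
    congr 1
    · simp [word_length]
    · simp only [word_append, word_cons, Qw_append, Qw]
      have hb := U_braid (s ^ 2) (i := b.e a) (j := b.e (a + 1)) (k := b.e (a + 1 + 1))
        (b.ne (by omega) (by omega) (by omega)) (b.ne (by omega) (by omega) (by omega))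
        (b.ne (by omega) (by omega) (by omega))
      have e1 : ∀ A B C D F : Matrix ι ι ℂ, A * B * C * D * F = A * (B * C * D) * F := by
        intro A B C D F; simp only [Matrix.mul_assoc]
      rw [e1, e1, hb]
  · intro x y a _ _ ha
    unfold Ph
    rw [hQ, hQ, hQ]
    have hne : b.e a ≠ b.e (a + 1) := b.ne (by omega) (by omega) (by omega)
    have hq := det_quad (s ^ 2) hne A E (Qw (s ^ 2) (b.word x) * Qw (s ^ 2) X)
      (Qw (s ^ 2) Y * Qw (s ^ 2) (b.word y))
    have e2 : Qw (s ^ 2) Y * Qw (s ^ 2) (b.word (x ++ a :: a :: y)) * Qw (s ^ 2) X =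
        Qw (s ^ 2) Y * Qw (s ^ 2) (b.word y) *
          (Um (s ^ 2) (b.e a) (b.e (a + 1)) * Um (s ^ 2) (b.e a) (b.e (a + 1))) *
          (Qw (s ^ 2) (b.word x) * Qw (s ^ 2) X) := by
      simp only [word_append, word_cons, Qw_append, Qw, Matrix.mul_assoc]
    have e1 : Qw (s ^ 2) Y * Qw (s ^ 2) (b.word (x ++ a :: y)) * Qw (s ^ 2) X =
        Qw (s ^ 2) Y * Qw (s ^ 2) (b.word y) * Um (s ^ 2) (b.e a) (b.e (a + 1)) *
          (Qw (s ^ 2) (b.word x) * Qw (s ^ 2) X) := by
      simp only [word_append, word_cons, Qw_append, Qw, Matrix.mul_assoc]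
    have e0 : Qw (s ^ 2) Y * Qw (s ^ 2) (b.word (x ++ y)) * Qw (s ^ 2) X =
        Qw (s ^ 2) Y * Qw (s ^ 2) (b.word y) *
          (Qw (s ^ 2) (b.word x) * Qw (s ^ 2) X) := by
      simp only [word_append, Qw_append, Matrix.mul_assoc]
    rw [e2, e1, e0, hq]
    have l2 : (X ++ (b.word (x ++ a :: a :: y) ++ Y)).length =
        (X ++ (b.word (x ++ y) ++ Y)).length + 2 := by simp [word_length]; omega
    have l1 : (X ++ (b.word (x ++ a :: y) ++ Y)).length =
        (X ++ (b.word (x ++ y) ++ Y)).length + 1 := by simp [word_length]; omega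
    rw [l2, l1]
    generalize (X ++ (b.word (x ++ y) ++ Y)).length = m
    generalize (A - E * (Qw (s ^ 2) Y * Qw (s ^ 2) (b.word y) *
      (Qw (s ^ 2) (b.word x) * Qw (s ^ 2) X))).det = d0
    generalize (A - E * (Qw (s ^ 2) Y * Qw (s ^ 2) (b.word y) *
      Um (s ^ 2) (b.e a) (b.e (a + 1)) * (Qw (s ^ 2) (b.word x) * Qw (s ^ 2) X))).det = d1
    rw [pow_succ, pow_succ, pow_succ]
    field_simp

/-! ### Bounds -/

theorem norm_U_le {t : ℂ} {i j : ι} {A : Matrix ι ι ℂ} {B : ℝ} (hB : 0 ≤ B)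
    (hA : ∀ a b, ‖A a b‖ ≤ B) (a b : ι) : ‖(A * Um t i j) a b‖ ≤ (3 + 2 * ‖t‖) * B := by
  unfold Um Rm
  rw [Matrix.mul_add, Matrix.mul_one, Matrix.mul_vecMulVec, Matrix.add_apply, vecMulVec_apply]
  have e1 : (A *ᵥ (Pi.single j 1 - Pi.single i 1)) a = A a j - A a i := by
    rw [Matrix.mulVec_sub]
    simp
  have h1 : ‖A a j - A a i‖ ≤ 2 * B := (norm_sub_le _ _).trans (by
    have := hA a j; have := hA a i; linarith)
  have h2 : ‖(Pi.single i 1 - Pi.single j t : ι → ℂ) b‖ ≤ 1 + ‖t‖ := by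
    rw [Pi.sub_apply]
    refine (norm_sub_le _ _).trans (add_le_add ?_ ?_)
    · rw [Pi.single_apply]
      split_ifs <;> simp
    · rw [Pi.single_apply]
      split_ifs <;> simp
  rw [e1]
  refine (norm_add_le _ _).trans ?_
  rw [norm_mul]
  have h3 := mul_le_mul h1 h2 (norm_nonneg _) (by positivity)
  have := hA a b
  nlinarith

theorem norm_Qw_le {t : ℂ} : ∀ (w : List (ι × ι)) (a b : ι),
    ‖Qw t w a b‖ ≤ (3 + 2 * ‖t‖) ^ w.length
  | [], a, b => by
    simp only [Qw, List.length_nil, pow_zero, one_apply]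
    split_ifs <;> simp
  | p :: w, a, b => by
    rw [Qw, List.length_cons, pow_succ']
    exact norm_U_le (by positivity) (norm_Qw_le w) a b

theorem norm_det_le {A : Matrix ι ι ℂ} {x : ℝ} (h : ∀ i j, ‖A i j‖ ≤ x) :
    ‖A.det‖ ≤ (Fintype.card ι).factorial * x ^ Fintype.card ι := by
  have := Matrix.det_le (abv := NormedField.toAbsoluteValue ℂ) (x := x) (A := A) h
  rw [nsmul_eq_mul] at this
  exact this

theorem norm_s_le {s : ℂ} (hs : s ≠ 0) {R : ℝ} (h : ‖s⁻¹ - s‖ ≤ R) : ‖s‖ ≤ R + 1 ∧ ‖s⁻¹‖ ≤ R + 1 := by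
  have hR : 0 ≤ R := (norm_nonneg _).trans h
  have h0 : 0 < ‖s‖ := norm_pos_iff.2 hs
  have h1 : ‖s⁻¹‖ * ‖s‖ = 1 := by rw [norm_inv]; exact inv_mul_cancel₀ h0.ne'
  have h2 : ‖s‖ - ‖s⁻¹‖ ≤ R := by
    have := norm_sub_norm_le s s⁻¹
    rw [norm_sub_rev] at this
    linarith
  have h3 : ‖s⁻¹‖ - ‖s‖ ≤ R := by
    have := norm_sub_norm_le s⁻¹ s
    linarith
  have h4 : 0 ≤ ‖s⁻¹‖ := norm_nonneg _
  constructor
  · by_contra hcon
    push Not at hcon
    have : 1 < ‖s⁻¹‖ := by linarith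
    nlinarith
  · by_contra hcon
    push Not at hcon
    have : 1 < ‖s‖ := by linarith
    nlinarith

theorem norm_Ph_le {A E : Matrix ι ι ℂ} (hA : ∀ i j, ‖A i j‖ ≤ 2) (hE : ∀ i j, ‖E i j‖ ≤ 1) {s : ℂ} (hs : s ≠ 0) {R : ℝ}
    (h : ‖s⁻¹ - s‖ ≤ R) {w : List (ι × ι)} {m : ℕ} (hw : w.length ≤ m) :
    ‖Ph A E s w‖ ≤ (R + 1) ^ m * ((Fintype.card ι).factorial *
      (2 + Fintype.card ι * (3 + 2 * (R + 1) ^ 2) ^ m) ^ Fintype.card ι) := by
  obtain ⟨h1, h2⟩ := norm_s_le hs h
  have hR : 0 ≤ R := (norm_nonneg _).trans h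
  unfold Ph
  rw [norm_mul, norm_pow]
  refine mul_le_mul ?_ ?_ (norm_nonneg _) (by positivity)
  · exact (pow_le_pow_left₀ (norm_nonneg _) h2 _).trans (pow_le_pow_right₀ (by linarith) hw)
  · refine norm_det_le fun i j => ?_
    rw [Matrix.sub_apply]
    refine (norm_sub_le _ _).trans (add_le_add (hA i j) ?_)
    · rw [Matrix.mul_apply]
      refine (norm_sum_le _ _).trans ?_
      have : ∀ k ∈ (Finset.univ : Finset ι), ‖E i k * Qw (s ^ 2) w k j‖ ≤
          (3 + 2 * (R + 1) ^ 2) ^ m := by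
        intro k _
        rw [norm_mul]
        have q1 := norm_Qw_le (t := s ^ 2) w k j
        rw [norm_pow] at q1
        have q2 : (3 + 2 * ‖s‖ ^ 2) ^ w.length ≤ (3 + 2 * (R + 1) ^ 2) ^ m := by
          have q3 : 3 + 2 * ‖s‖ ^ 2 ≤ 3 + 2 * (R + 1) ^ 2 := by
            have := pow_le_pow_left₀ (norm_nonneg s) h1 2
            linarith
          exact (pow_le_pow_left₀ (by positivity) q3 _).trans
            (pow_le_pow_right₀ (by nlinarith [sq_nonneg (R + 1)]) hw)
        have q4 := mul_le_mul (hE i k) (q1.trans q2) (norm_nonneg _) zero_le_one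
        rwa [one_mul] at q4
      refine (Finset.sum_le_card_nsmul _ _ _ this).trans ?_
      rw [Finset.card_univ, nsmul_eq_mul]

/-! ### The tail bound -/

omit [Fintype ι] [DecidableEq ι] in
theorem full_append : ∀ (b₁ b₂ : List (Box ι)) (w₁ w₂ : List (List ℕ)), b₁.length = w₁.length →
    full (b₁ ++ b₂) (w₁ ++ w₂) = full b₁ w₁ ++ full b₂ w₂
  | [], b₂, [], w₂, _ => rfl
  | b :: b₁, b₂, w :: w₁, w₂, h => by
    rw [List.cons_append, List.cons_append, full, full,
      full_append b₁ b₂ w₁ w₂ (by simpa using h), List.append_assoc]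
  | [], b₂, w :: w₁, w₂, h => by simp at h
  | b :: b₁, b₂, [], w₂, h => by simp at h

omit [Fintype ι] [DecidableEq ι] in
theorem full_length : ∀ (bs : List (Box ι)) (ws : List (List ℕ)), bs.length = ws.length →
    (full bs ws).length = Helper29.EV2.tot ws
  | [], [], _ => rfl
  | b :: bs, w :: ws, h => by
    rw [full, List.length_append, word_length, full_length bs ws (by simpa using h)]
    simp [Helper29.EV2.tot]
  | [], w :: ws, h => by simp at h
  | b :: bs, [], h => by simp at h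

omit [DecidableEq ι] in
theorem box_k (b : Box ι) : b.k < Fintype.card ι := by
  have h : Function.Injective (fun a : Fin (b.k + 1) => b.e a) := by
    intro x y hxy
    exact Fin.ext (b.inj _ _ (by omega) (by omega) hxy)
  have := Fintype.card_le_of_injective _ h
  rw [Fintype.card_fin] at this
  omega

theorem tot_le {ws : List (List ℕ)} {m : ℕ} (h : ∀ u ∈ ws, u.length ≤ m) :
    Helper29.EV2.tot ws ≤ ws.length * m := by
  induction ws with
  | nil => simp [Helper29.EV2.tot]
  | cons w ws ih =>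
    have h1 := ih fun u hu => h u (by simp [hu])
    have h2 := h w (by simp)
    have e : Helper29.EV2.tot (w :: ws) = w.length + Helper29.EV2.tot ws := by
      simp [Helper29.EV2.tot]
    rw [e, List.length_cons, Nat.add_mul, Nat.one_mul]
    omega

/-- **Tail bound for label words.** -/
theorem lab_tail (n K : ℕ) {r₀ R : ℝ} (hr₀ : 0 < r₀) :
    ∃ c : ℝ, 0 < c ∧ ∃ C : ℝ, ∀ (ι : Type) [Fintype ι] [DecidableEq ι], Fintype.card ι ≤ n →
      ∀ A E : Matrix ι ι ℂ, (∀ i j, ‖A i j‖ ≤ 2) → (∀ i j, ‖E i j‖ ≤ 1) → ∀ bs : List (Box ι), bs.length ≤ K →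
      ∀ ws : List (List ℕ), List.Forall₂ (fun b w => ∀ a ∈ w, a < b.k) bs ws →
      ∀ s : ℂ, s ≠ 0 → r₀ ≤ ‖s⁻¹ - s‖ → ‖s⁻¹ - s‖ ≤ R →
      ∀ a : ℝ, 0 < a → a ^ 2 = ‖s⁻¹ - s‖ * a + 1 →
      ‖(s⁻¹) ^ (full bs ws).length * (A - E * Qw (s ^ 2) (full bs ws)).det‖ ≤
        C * a ^ (full bs ws).length *
          Real.exp (-(c * (full bs ws).length * (1 - Real.cos (2 * (s⁻¹ - s).arg)))) := by
  obtain ⟨c, hc, C, hC, H⟩ := Helper29.EV2.multi_tail n (R := R) hr₀
  set m := K * (n * (n + 1) / 2) with hm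
  set M := (R + 1) ^ m * ((n.factorial : ℝ) * (2 + n * (3 + 2 * (R + 1) ^ 2) ^ m) ^ n) with hM
  refine ⟨c, hc, (max C 1) ^ K * M, ?_⟩
  intro ι _ _ hcard A E hA hE bs hbs ws hws s hs hz1 hz2 a ha h2
  have hz0 : s⁻¹ - s ≠ 0 := by
    intro h
    rw [h, norm_zero] at hz1
    linarith
  have hR : 0 ≤ R := (norm_nonneg _).trans hz2
  set oks : List (ℕ → Prop) := bs.map fun b a => a < b.k with hoks
  have hfit : ∀ ws : List (List ℕ), Helper29.EV2.Fit oks ws ↔
      List.Forall₂ (fun b w => ∀ a ∈ w, a < b.k) bs ws := by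
    intro ws
    unfold Helper29.EV2.Fit
    rw [hoks, List.forall₂_map_left_iff]
  have h1 := H (s⁻¹ - s) hz1 hz2 a ha h2 oks (fun ws => Ph A E s (full bs ws)) ?_ M ?_ ws
    ((hfit ws).2 hws)
  · have e1 : (full bs ws).length = Helper29.EV2.tot ws := full_length bs ws hws.length_eq
    beta_reduce at h1
    rw [← Helper29.EV2.cos_two_arg _ hz0, ← e1] at h1
    refine (le_of_eq (by rfl)).trans (h1.trans ?_)
    have e3 : oks.length ≤ K := by rw [hoks, List.length_map]; exact hbs
    have q1 : C ^ oks.length ≤ (max C 1) ^ K :=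
      (pow_le_pow_left₀ hC.le (le_max_left _ _) _).trans
        (pow_le_pow_right₀ (le_max_right _ _) e3)
    have hM0 : 0 ≤ M := by positivity
    have q2 : 0 ≤ a ^ (full bs ws).length *
        Real.exp (-(c * (full bs ws).length * (1 - Real.cos (2 * (s⁻¹ - s).arg)))) * M := by
      positivity
    have := mul_le_mul_of_nonneg_right q1 q2
    calc C ^ oks.length * a ^ (full bs ws).length *
          Real.exp (-(c * (full bs ws).length * (1 - Real.cos (2 * (s⁻¹ - s).arg)))) * M
        = C ^ oks.length * (a ^ (full bs ws).length *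
          Real.exp (-(c * (full bs ws).length * (1 - Real.cos (2 * (s⁻¹ - s).arg)))) * M) := by
            ring
      _ ≤ _ := this
      _ = _ := by ring
  · intro o₁ ok o₂ w₁ w₂ ho hw₁ hw₂
    obtain ⟨b₁, r, hb, hb₁, hr⟩ := List.map_eq_append_iff.1 (hoks.symm.trans ho)
    obtain ⟨b, b₂, hr', hb0, hb₂⟩ := List.map_eq_cons_iff.1 hr
    have hl : b₁.length = w₁.length := by
      have := hw₁.length_eq
      rw [← this, ← hb₁, List.length_map]
    have hrel := rel_box A E hs b (n := n) (by have := box_k b; omega) (full b₁ w₁) (full b₂ w₂)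
    rw [hb0] at hrel
    have e : (fun w => Ph A E s (full bs (w₁ ++ w :: w₂))) =
        fun w => Ph A E s (full b₁ w₁ ++ (b.word w ++ full b₂ w₂)) := by
      funext w
      rw [hb, hr', full_append _ _ _ _ hl, full]
    show Helper29.EV2.Rel _ _ _ (fun w => Ph A E s (full bs (w₁ ++ w :: w₂)))
    rw [e]
    exact hrel
  · intro us hus hshort
    have hl : bs.length = us.length := ((hfit us).1 hus).length_eq
    have q := norm_Ph_le hA hE hs hz2 (w := full bs us) (m := m) (by
      rw [full_length bs us hl, hm]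
      refine (tot_le hshort).trans ?_
      exact Nat.mul_le_mul_right _ (by omega))
    refine q.trans ?_
    rw [hM]
    have hX : (1 : ℝ) ≤ 3 + 2 * (R + 1) ^ 2 := by nlinarith [sq_nonneg (R + 1)]
    have hX' : (0 : ℝ) ≤ (3 + 2 * (R + 1) ^ 2) ^ m := by positivity
    have hc' : (Fintype.card ι : ℝ) ≤ n := by exact_mod_cast hcard
    have g1 : ((Fintype.card ι).factorial : ℝ) ≤ n.factorial := by
      exact_mod_cast Nat.factorial_le hcard
    have g2 : (2 + Fintype.card ι * (3 + 2 * (R + 1) ^ 2) ^ m) ^ Fintype.card ι ≤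
        (2 + n * (3 + 2 * (R + 1) ^ 2) ^ m) ^ n :=
      (pow_le_pow_left₀ (by positivity) (by
        have := mul_le_mul_of_nonneg_right hc' hX'
        linarith) _).trans (pow_le_pow_right₀ (by
          have : (0 : ℝ) ≤ n * (3 + 2 * (R + 1) ^ 2) ^ m := by positivity
          linarith) hcard)
    exact mul_le_mul_of_nonneg_left (mul_le_mul g1 g2 (by positivity) (by positivity))
      (by positivity)

end Pool.Agent.Helper29.Lab
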