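import Pool.Agent.Helper29.EV2.Slot

/-!
# The tail theorem for several slots

`Fit oks ws`: the word `ws j` has all letters in `oks j`, and the two lists have the same length.
`multi_tail`: if `Ψ` satisfies the relations in every slot (the other words being fixed), then
`‖Ψ ws‖ ≤ C ^ (number of slots) a ^ L exp (- c L (1 - cos (2 arg z))) M`, `L` the total length of the
words, `M` a bound for `Ψ` on the families of words of length `≤ n (n + 1) / 2`.
-/

set_option autoImplicit false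

namespace Pool.Agent.Helper29.EV2

open Pool.Agent.Helper76.Conway.Top Pool.Agent.Helper29.EV

/-- the words fit into the slots -/
def Fit (oks : List (ℕ → Prop)) (ws : List (List ℕ)) : Prop :=
  List.Forall₂ (fun ok w => ∀ i ∈ w, ok i) oks ws

/-- the total length -/
def tot (ws : List (List ℕ)) : ℕ := (ws.map List.length).sum

/-- the relations in every slot -/
def MRel (n : ℕ) (z : ℂ) (oks : List (ℕ → Prop)) (Ψ : List (List ℕ) → ℂ) : Prop :=
  ∀ (o₁ : List (ℕ → Prop)) (ok : ℕ → Prop) (o₂ : List (ℕ → Prop)) (w₁ w₂ : List (List ℕ)),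
    oks = o₁ ++ ok :: o₂ → Fit o₁ w₁ → Fit o₂ w₂ → Rel n ok z (fun w => Ψ (w₁ ++ w :: w₂))

theorem multi_tail (n : ℕ) {ρ₀ R : ℝ} (hρ₀ : 0 < ρ₀) :
    ∃ c : ℝ, 0 < c ∧ ∃ C : ℝ, 0 < C ∧ ∀ (z : ℂ), ρ₀ ≤ ‖z‖ → ‖z‖ ≤ R → ∀ a : ℝ, 0 < a →
      a ^ 2 = ‖z‖ * a + 1 → ∀ (oks : List (ℕ → Prop)) (Ψ : List (List ℕ) → ℂ), MRel n z oks Ψ →
      ∀ M : ℝ, (∀ us : List (List ℕ), Fit oks us → (∀ u ∈ us, u.length ≤ n * (n + 1) / 2) →
        ‖Ψ us‖ ≤ M) →
      ∀ ws : List (List ℕ), Fit oks ws →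
      ‖Ψ ws‖ ≤ C ^ oks.length * a ^ tot ws *
        Real.exp (-(c * tot ws * (1 - (z ^ 2).re / ‖z‖ ^ 2))) * M := by
  obtain ⟨c, hc, C, hC, H⟩ := slot_tail n (R := R) hρ₀
  refine ⟨c, hc, C, hC, ?_⟩
  intro z hz1 hz2 a ha h2 oks
  induction oks with
  | nil =>
    intro Ψ _ M hM ws hws
    cases hws
    have := hM [] List.Forall₂.nil (by simp)
    simpa [tot] using this
  | cons ok oks ih =>
    intro Ψ hΨ M hM ws hws
    obtain ⟨w, ws', hw, hws', rfl⟩ : ∃ w ws', (∀ i ∈ w, ok i) ∧ Fit oks ws' ∧ ws = w :: ws' := by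
      cases hws with
      | cons h1 h2 => exact ⟨_, _, h1, h2, rfl⟩
    have h1 := ih (fun us => Ψ (w :: us)) (by
      intro o₁ ok' o₂ w₁ w₂ ho h1 h2
      exact hΨ (ok :: o₁) ok' o₂ (w :: w₁) w₂ (by rw [ho]; rfl) (List.Forall₂.cons hw h1) h2)
      (C * a ^ w.length * Real.exp (-(c * w.length * (1 - (z ^ 2).re / ‖z‖ ^ 2))) * M) (by
      intro us hus hlen
      refine H ok z (fun w => Ψ (w :: us)) (hΨ [] ok oks [] us rfl List.Forall₂.nil hus) hz1 hz2 a
        ha h2 M ?_ w hw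
      intro u hu hul
      refine hM (u :: us) (List.Forall₂.cons hu hus) ?_
      intro v hv
      rcases List.mem_cons.1 hv with hv | hv
      · rw [hv]; exact hul
      · exact hlen v hv) ws' hws'
    refine h1.trans (le_of_eq ?_)
    have e1 : tot (w :: ws') = w.length + tot ws' := by simp [tot]
    have e2 : Real.exp (-(c * (tot (w :: ws') : ℕ) * (1 - (z ^ 2).re / ‖z‖ ^ 2)))
        = Real.exp (-(c * tot ws' * (1 - (z ^ 2).re / ‖z‖ ^ 2)))
          * Real.exp (-(c * w.length * (1 - (z ^ 2).re / ‖z‖ ^ 2))) := by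
      rw [← Real.exp_add, e1]
      congr 1
      push_cast
      ring
    rw [e2, e1, pow_add, List.length_cons, pow_succ]
    ring

end Pool.Agent.Helper29.EV2
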