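import Pool.Agent.Helper27.EV2.Rec
import Pool.Agent.Helper29.EV2.Fin

/-!
# The relations inside a row (EV2, H3)

The small determinant `det (1 - Q)` depends on the word of a row only through its action on the flow.
-/

set_option autoImplicit false

namespace Pool.Agent.Helper29.RT

open Polynomial Pool.Agent.Helper85.Exp Pool.Agent.Helper60.EV2 Pool.Agent.Helper27.EV2

/-! ### The skeleton -/

/-- the extrema of a word -/
def es (W : Word) : List Ext := W.map Row.e

/-- is it a maximum -/
def isMx : Ext → Bool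
  | .mx _ _ => true
  | .mn _ => false

theorem row_e (W : Word) (r : ℕ) : (row W r).e = (es W).getD r (.mn 0) := by
  unfold row es
  exact (List.getD_map W ⟨.mn 0, []⟩ Row.e).symm

theorem lv_es (W : Word) (r : ℕ) : lv W r = ((es W).take r).foldl (fun l e => e.act l) [] := by
  unfold lv es
  rw [← List.map_take, List.foldl_map]

theorem maxima_es (W : Word) : maxima W = ((es W).filter isMx).length := by
  unfold maxima es
  rw [List.filter_map, List.length_map]
  congr 1

theorem nb_es (W : Word) (r : ℕ) : nb W r = (((es W).take r).filter isMx).length := by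
  unfold nb
  rw [maxima_es]
  unfold es
  rw [List.map_take]

section

variable {W W' : Word} (h : es W = es W')
include h

theorem len_eq : W.length = W'.length := by
  have := congrArg List.length h
  simpa [es] using this

theorem row_e_eq (r : ℕ) : (row W r).e = (row W' r).e := by rw [row_e, row_e, h]
theorem lv_eq (r : ℕ) : lv W r = lv W' r := by rw [lv_es, lv_es, h]
theorem maxima_eq : maxima W = maxima W' := by rw [maxima_es, maxima_es, h]
theorem nb_eq (r : ℕ) : nb W r = nb W' r := by rw [nb_es, nb_es, h]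

theorem lab_eq (r : ℕ) : lab W r = lab W' r := by
  induction r with
  | zero => rfl
  | succ r ih =>
    unfold lab
    rw [row_e_eq h r, ih, nb_eq h r]

theorem w0_eq : w0 W = w0 W' := by
  unfold w0
  rw [len_eq h]
  refine Finset.sum_congr rfl fun r _ => ?_
  rw [row_e_eq h r, lv_eq h r]

end

section

variable {R : Type} [CommRing R] {t ti : R} {W W' : Word} {σ σ' : ℕ → ℕ → St}

theorem flow_eq (h : es W = es W')
    (hF : ∀ r < W.length, ∀ u : ℕ → R, frun t ti (σ r) (row W r).w u (row W r).w.length =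
      frun t ti (σ' r) (row W' r).w u (row W' r).w.length) (ξ η : ℕ → R) :
    ∀ r ≤ W.length, flow W t ti σ ξ η r = flow W' t ti σ' ξ η r := by
  intro r
  induction r with
  | zero => intro _; rfl
  | succ r ih =>
    intro hr
    unfold flow
    rw [hF r (by omega), row_e_eq h r, nb_eq h r, ih (by omega)]

theorem Q_eq (h : es W = es W')
    (hF : ∀ r < W.length, ∀ u : ℕ → R, frun t ti (σ r) (row W r).w u (row W r).w.length =
      frun t ti (σ' r) (row W' r).w u (row W' r).w.length) (ξ : ℕ → R) (i : ℕ) :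
    Q W t ti σ ξ i = Q W' t ti σ' ξ i := by
  unfold Q
  rw [len_eq h]
  refine Finset.sum_congr rfl fun r hr => ?_
  rw [Finset.mem_range, ← len_eq h] at hr
  rw [row_e_eq h r, lv_eq h r, lab_eq h r, flow_eq h hF ξ 0 r hr.le]

/-- the determinant as a function of the size and the entries -/
def dn (n : ℕ) (f : ℕ → ℕ → R) : R :=
  (1 - Matrix.of fun i j : Fin n => f i j).det

theorem det_dn (W : Word) (t ti : R) (σ : ℕ → ℕ → St) : (1 - Qm W t ti σ).det =
    dn (maxima W) (fun i j => if i = 0 then 0 else Q W t ti σ (fun a => if a = j then (1 : R) else 0) i) :=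
  rfl

theorem det_eq (h : es W = es W')
    (hF : ∀ r < W.length, ∀ u : ℕ → R, frun t ti (σ r) (row W r).w u (row W r).w.length =
      frun t ti (σ' r) (row W' r).w u (row W' r).w.length) :
    (1 - Qm W t ti σ).det = (1 - Qm W' t ti σ').det := by
  rw [det_dn, det_dn, maxima_eq h]
  congr 1
  funext i j
  rw [Q_eq h hF]

end

/-! ### One row -/

section

variable {R : Type} [CommRing R] {t ti : R} {u : ℕ → R}

theorem frun_congr {σ σ' : ℕ → St} {w w' : List ℕ} : ∀ i, (∀ j < i, σ j = σ' j ∧ w.getD j 0 = w'.getD j 0) →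
    frun t ti σ w u i = frun t ti σ' w' u i := by
  intro i
  induction i with
  | zero => intro _; rfl
  | succ i ih =>
    intro h
    unfold frun
    rw [(h i (by omega)).1, (h i (by omega)).2, ih fun j hj => h j (by omega)]

theorem frun_append (σ : ℕ → St) (x y : List ℕ) (i : ℕ) :
    frun t ti σ (x ++ y) u (x.length + i) =
      frun t ti (fun j => σ (x.length + j)) y (frun t ti σ x u x.length) i := by
  induction i with
  | zero =>
    refine frun_congr _ fun j hj => ⟨rfl, ?_⟩
    rw [List.getD_append _ _ _ _ hj]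
  | succ i ih =>
    rw [← Nat.add_assoc, frun, ih, frun, List.getD_append_right _ _ _ _ (by omega)]
    congr 2
    omega

theorem frun_cons (σ : ℕ → St) (a : ℕ) (y : List ℕ) (i : ℕ) :
    frun t ti σ (a :: y) u (i + 1) = frun t ti (fun j => σ (j + 1)) y (fl t ti (σ 0) a u) i := by
  have := frun_append (t := t) (ti := ti) (u := u) σ [a] y i
  simp only [List.singleton_append, List.length_singleton] at this
  rw [Nat.add_comm i 1, this]
  have e : (fun j => σ (1 + j)) = fun j => σ (j + 1) := by
    funext j; rw [Nat.add_comm]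
  rw [e]
  rfl

/-- the whole word -/
def FR (t ti : R) (σ : ℕ → St) (w : List ℕ) (u : ℕ → R) : ℕ → R := frun t ti σ w u w.length

theorem FR_cons (σ : ℕ → St) (a : ℕ) (y : List ℕ) :
    FR t ti σ (a :: y) u = FR t ti (fun j => σ (j + 1)) y (fl t ti (σ 0) a u) := by
  unfold FR
  rw [List.length_cons, frun_cons]

theorem FR_append (σ : ℕ → St) (x y : List ℕ) :
    FR t ti σ (x ++ y) u = FR t ti (fun j => σ (x.length + j)) y (FR t ti σ x u) := by
  unfold FR
  rw [List.length_append, frun_append]

theorem FR_congr {σ σ' : ℕ → St} {w : List ℕ} (h : ∀ j < w.length, σ j = σ' j) :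
    FR t ti σ w u = FR t ti σ' w u :=
  frun_congr _ fun j hj => ⟨h j hj, rfl⟩

theorem fl_comm {a b : ℕ} (h : a + 2 ≤ b) :
    fl t ti .pos b (fl t ti .pos a u) = fl t ti .pos a (fl t ti .pos b u) := by
  funext j
  simp only [fl]
  split_ifs <;> first | rfl | omega

theorem fl_braid (a : ℕ) :
    fl t ti .pos a (fl t ti .pos (a + 1) (fl t ti .pos a u)) =
      fl t ti .pos (a + 1) (fl t ti .pos a (fl t ti .pos (a + 1) u)) := by
  have n1 : ¬ a + 1 + 1 = a := by omega
  have n2 : ¬ a = a + 1 + 1 := by omega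
  have n3 : ¬ a + 1 = a := by omega
  funext j
  by_cases h0 : j = a
  · subst h0
    simp [fl, n1, n2]
  · by_cases h1 : j = a + 1
    · subst h1
      simp [fl, n1, n2]
      ring
    · by_cases h2 : j = a + 1 + 1
      · subst h2
        simp [fl, n1, n2]
        ring
      · simp [fl, h0, h1, h2]

theorem fl_neg (h : t * ti = 1) (a : ℕ) : fl t ti .neg a (fl t ti .pos a u) = u := by
  funext j
  by_cases h0 : j = a
  · subst h0
    simp [fl]
    linear_combination (-u (j + 1)) * h
  · by_cases h1 : j = a + 1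
    · subst h1
      simp [fl]
      linear_combination (u (a + 1)) * h
    · simp [fl, h0, h1]

theorem FR_pos_append (x y : List ℕ) : FR t ti (fun _ => .pos) (x ++ y) u =
    FR t ti (fun _ => .pos) y (FR t ti (fun _ => .pos) x u) := FR_append _ x y

theorem FR_pos_cons (a : ℕ) (y : List ℕ) : FR t ti (fun _ => .pos) (a :: y) u =
    FR t ti (fun _ => .pos) y (fl t ti .pos a u) := FR_cons _ a y

theorem run_comm (x y : List ℕ) {a b : ℕ} (h : a + 2 ≤ b) :
    FR t ti (fun _ => .pos) (x ++ a :: b :: y) u = FR t ti (fun _ => .pos) (x ++ b :: a :: y) u := by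
  simp only [FR_pos_append, FR_pos_cons]
  rw [fl_comm h]

theorem run_braid (x y : List ℕ) (a : ℕ) :
    FR t ti (fun _ => .pos) (x ++ a :: (a + 1) :: a :: y) u =
      FR t ti (fun _ => .pos) (x ++ (a + 1) :: a :: (a + 1) :: y) u := by
  simp only [FR_pos_append, FR_pos_cons]
  rw [fl_braid]

theorem run_neg (h : t * ti = 1) (x y : List ℕ) (a : ℕ) :
    FR t ti (fun j => if j = x.length + 1 then .neg else .pos) (x ++ a :: a :: y) u =
      FR t ti (fun _ => .pos) (x ++ y) u := by
  rw [FR_append, FR_cons, FR_cons]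
  have e1 : FR t ti (fun j => if j = x.length + 1 then .neg else .pos) x u =
      FR t ti (fun _ => .pos) x u := FR_congr fun j hj => if_neg (by omega)
  have e2 : (fun j => (fun j => (fun j => (fun j => if j = x.length + 1 then St.neg else St.pos)
      (x.length + j)) (j + 1)) (j + 1)) = fun _ => St.pos := by
    funext j
    exact if_neg (by omega)
  rw [e1, e2, FR_pos_append]
  simp only [add_zero, zero_add, if_true]
  rw [if_neg (by omega), fl_neg h]

theorem run_smooth (x y : List ℕ) (a : ℕ) :
    FR t ti (fun j => if j = x.length + 1 then .smooth else .pos) (x ++ a :: a :: y) u =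
      FR t ti (fun _ => .pos) (x ++ a :: y) u := by
  rw [FR_append, FR_cons, FR_cons]
  have e1 : FR t ti (fun j => if j = x.length + 1 then .smooth else .pos) x u =
      FR t ti (fun _ => .pos) x u := FR_congr fun j hj => if_neg (by omega)
  have e2 : (fun j => (fun j => (fun j => (fun j => if j = x.length + 1 then St.smooth else St.pos)
      (x.length + j)) (j + 1)) (j + 1)) = fun _ => St.pos := by
    funext j
    exact if_neg (by omega)
  rw [e1, e2, FR_pos_append, FR_pos_cons]
  simp only [add_zero, zero_add, if_true]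
  rw [if_neg (by omega)]
  rfl

end

/-! ### Replacing the word of a row -/

/-- the letter `k` is possible in the row `r` -/
def okE (E : List Ext) (r k : ℕ) : Prop :=
  ((E.take (r + 1)).foldl (fun l e => e.act l) [])[k]? = some true ∧
    ((E.take (r + 1)).foldl (fun l e => e.act l) [])[k + 1]? = some true

/-- the skeleton is possible -/
structure SkOk (E : List Ext) : Prop where
  ext : ∀ r < E.length, (E.getD r (.mn 0)).Ok ((E.take r).foldl (fun l e => e.act l) [])
  closed : (E.take E.length).foldl (fun l e => e.act l) [] = []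

theorem ok_iff (W : Word) : Ok W ↔ SkOk (es W) ∧ ∀ r < W.length, ∀ k ∈ (row W r).w, okE (es W) r k := by
  have hl : (es W).length = W.length := by simp [es]
  constructor
  · intro h
    refine ⟨⟨fun r hr => ?_, ?_⟩, fun r hr k hk => ?_⟩
    · have := h.ext r (by omega)
      rwa [row_e, lv_es] at this
    · have := h.closed
      rwa [lv_es, ← hl] at this
    · have := h.cr r hr k hk
      rwa [lv_es] at this
  · rintro ⟨h1, h2⟩
    refine ⟨fun r hr => ?_, fun r hr k hk => ?_, ?_⟩
    · rw [row_e, lv_es]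
      exact h1.ext r (by omega)
    · rw [lv_es]
      exact h2 r hr k hk
    · rw [lv_es, ← hl]
      exact h1.closed

/-- the word with the word `w` in one row -/
def Wd (W₁ : Word) (e : Ext) (W₂ : Word) (w : List ℕ) : Word := W₁ ++ ⟨e, w⟩ :: W₂

section

variable {W₁ W₂ : Word} {e : Ext}

theorem es_Wd (w : List ℕ) : es (Wd W₁ e W₂ w) = es W₁ ++ e :: es W₂ := by
  simp [es, Wd]

theorem row_Wd (w : List ℕ) : row (Wd W₁ e W₂ w) W₁.length = ⟨e, w⟩ := by
  unfold row Wd
  rw [List.getD_append_right _ _ _ _ le_rfl, Nat.sub_self]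
  rfl

theorem row_Wd_ne (w w' : List ℕ) {r : ℕ} (h : r ≠ W₁.length) :
    row (Wd W₁ e W₂ w) r = row (Wd W₁ e W₂ w') r := by
  unfold row Wd
  rcases Nat.lt_or_ge r W₁.length with h1 | h1
  · rw [List.getD_append _ _ _ _ h1, List.getD_append _ _ _ _ h1]
  · rw [List.getD_append_right _ _ _ _ h1, List.getD_append_right _ _ _ _ h1]
    obtain ⟨m, hm⟩ : ∃ m, r - W₁.length = m + 1 := ⟨r - W₁.length - 1, by omega⟩
    rw [hm, List.getD_cons_succ, List.getD_cons_succ]

theorem crossings_Wd (w : List ℕ) :
    crossings (Wd W₁ e W₂ w) = crossings W₁ + w.length + crossings W₂ := by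
  simp [crossings, Wd, Nat.add_assoc]

theorem length_Wd (w : List ℕ) : (Wd W₁ e W₂ w).length = W₁.length + 1 + W₂.length := by
  simp [Wd]; omega

theorem ne_nil_Wd (w : List ℕ) : Wd W₁ e W₂ w ≠ [] := by simp [Wd]

theorem ok_Wd {w w' : List ℕ} (h : Ok (Wd W₁ e W₂ w))
    (hw : ∀ k ∈ w', okE (es W₁ ++ e :: es W₂) W₁.length k) : Ok (Wd W₁ e W₂ w') := by
  rw [ok_iff] at h ⊢
  rw [es_Wd] at h ⊢
  refine ⟨h.1, fun r hr k hk => ?_⟩
  by_cases h1 : r = W₁.length
  · subst h1
    rw [row_Wd] at hk
    exact hw k hk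
  · rw [row_Wd_ne w' w h1] at hk
    exact h.2 r (by rw [length_Wd] at hr ⊢; exact hr) k hk

end

/-! ### One crossing changed -/

open Classical in
theorem wr_upd {P : Type} [Fintype P] {G : Sh P} (D : Dg G) {p : P} (hp : G.op p ≠ p)
    (hl : G.lf p = true) (u : St) : wr (D.upd p u) = wr D - sgn (D.st p) + sgn u := by
  unfold wr
  have key : ∀ q : P, (if G.op q ≠ q ∧ G.lf q = true then sgn ((D.upd p u).st q) else 0) =
      (if G.op q ≠ q ∧ G.lf q = true then sgn (D.st q) else 0) +
        if q = p then sgn u - sgn (D.st p) else 0 := by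
    intro q
    by_cases h1 : q = p
    · subst h1
      have c : G.op q ≠ q ∧ G.lf q = true := ⟨hp, hl⟩
      rw [if_pos c, if_pos c, if_pos rfl]
      have e : (D.upd q u).st q = u := if_pos (Or.inl rfl)
      rw [e]
      ring
    · rw [if_neg h1, add_zero]
      by_cases c : G.op q ≠ q ∧ G.lf q = true
      · rw [if_pos c, if_pos c]
        have h2 : q ≠ G.op p := by
          intro h2
          have h3 := G.lf_op p hp
          rw [← h2, c.2, hl] at h3
          exact absurd h3 (by simp)
        have e : (D.upd p u).st q = D.st q := if_neg (by rintro (h | h); exacts [h1 h, h2 h])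
        rw [e]
      · rw [if_neg c, if_neg c]
  rw [Finset.sum_congr rfl fun q _ => key q, Finset.sum_add_distrib]
  simp only [Finset.sum_ite_eq', Finset.mem_univ, if_true]
  ring

section

variable {W : Word} (hW : Ok W) {r₀ i₀ : ℕ} (hr : r₀ < W.length) (hi : i₀ < (row W r₀).w.length)
include hW hr hi

omit hW hr in
theorem getD_mem : (row W r₀).w.getD i₀ 0 ∈ (row W r₀).w := by
  rw [List.getD_eq_getElem _ _ hi]
  exact List.getElem_mem _

theorem lt1 : (row W r₀).w.getD i₀ 0 + 1 < (lv W (r₀ + 1)).length := by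
  have h := (hW.cr r₀ hr _ (getD_mem hi)).2
  by_contra hcon
  rw [List.getElem?_eq_none (by omega)] at h
  exact absurd h (by simp)

/-- the left strand of the crossing -/
def pt : Pt W := ⟨r₀, i₀, (row W r₀).w.getD i₀ 0, hr, hi.le, by have := lt1 hW hr hi; omega⟩

theorem cro_pt : Cro (pt hW hr hi) := by
  have h := hW.cr r₀ hr _ (getD_mem hi)
  have h1 := lt1 hW hr hi
  refine ⟨hi, ?_, ?_, h1, Or.inl rfl⟩
  · unfold dir
    rw [List.getD_eq_getElem?_getD]
    change ((lv W (r₀ + 1))[(row W r₀).w.getD i₀ 0]?.getD false) = true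
    rw [h.1]; rfl
  · unfold dir
    rw [List.getD_eq_getElem?_getD]
    change ((lv W (r₀ + 1))[(row W r₀).w.getD i₀ 0 + 1]?.getD false) = true
    rw [h.2]; rfl

theorem op_pt : (op (pt hW hr hi)).r = r₀ ∧ (op (pt hW hr hi)).i = i₀ ∧
    (op (pt hW hr hi)).j = (row W r₀).w.getD i₀ 0 + 1 := by
  rw [op_of (cro_pt hW hr hi)]
  refine ⟨rfl, rfl, ?_⟩
  change Helper27.EV2.sw ((row W r₀).w.getD i₀ 0) ((row W r₀).w.getD i₀ 0) = _
  simp [Helper27.EV2.sw]

theorem op_ne : op (pt hW hr hi) ≠ pt hW hr hi := by
  intro h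
  have h1 := (op_pt hW hr hi).2.2
  rw [h] at h1
  change (row W r₀).w.getD i₀ 0 = _ at h1
  omega

theorem lf_pt : lf (pt hW hr hi) = true := by
  unfold lf
  exact decide_eq_true rfl

theorem stat_upd (u : St) : stat ((allPos (shadow W hW)).upd (pt hW hr hi) u) =
    fun r i => if r = r₀ ∧ i = i₀ then u else .pos := by
  funext r i
  unfold stat
  split_ifs with h1 h2 h2
  · obtain ⟨rfl, rfl⟩ := h2
    exact if_pos (Or.inl rfl)
  · refine if_neg ?_
    rintro (h3 | h3)
    · exact h2 ⟨congrArg Pt.r h3, congrArg Pt.i h3⟩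
    · have h4 := op_pt hW hr hi
      change _ = op (pt hW hr hi) at h3
      rw [← h3] at h4
      exact h2 ⟨h4.1, h4.2.1⟩
  · exfalso
    obtain ⟨rfl, rfl⟩ := h2
    have := lt1 hW hr hi
    exact h1 ⟨hr, hi.le, by omega⟩
  · rfl

omit hr hi in
theorem stat_allPos : stat (allPos (shadow W hW)) = fun _ _ => .pos := by
  funext r i
  unfold stat
  split_ifs <;> rfl

theorem upd_pos : (allPos (shadow W hW)).upd (pt hW hr hi) .pos = allPos (shadow W hW) := by
  ext q
  unfold Dg.upd
  simp [allPos]

theorem wr_upd' (u : St) : wr ((allPos (shadow W hW)).upd (pt hW hr hi) u) =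
    wr (allPos (shadow W hW)) - 1 + sgn u :=
  wr_upd (allPos (shadow W hW)) (op_ne hW hr hi) (lf_pt hW hr hi) u

end

end Pool.Agent.Helper29.RT
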