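import Pool.Agent.Helper29.EV.Tail

/-!
# The one-slot tail theorem

`Rel n ok z Φ`: a functional `Φ` on positive words with letters in the set `ok ⊆ {0, …, n - 1}` is
invariant under far commutation and the braid relation of letters in `ok`, and satisfies the
quadratic relation `Φ (u i i v) = Φ (u v) + z Φ (u i v)`.

`slot_tail`: then `‖Φ w‖ ≤ C M a ^ |w| exp (- c |w| (1 - cos (2 arg z)))`, `M` a bound for `Φ` on the
words of length `≤ n (n + 1) / 2`, `a ^ 2 = ‖z‖ a + 1`, with `c`, `C` independent of `ok`, `z`, `Φ`, `w`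
as long as `ρ₀ ≤ ‖z‖ ≤ R`.
-/

set_option autoImplicit false

namespace Pool.Agent.Helper29.EV2

open Pool.Agent.Helper76.Conway.Top Pool.Agent.Helper29.EV

/-- the relations of a functional on the words with letters in `ok` -/
structure Rel (n : ℕ) (ok : ℕ → Prop) (z : ℂ) (Φ : List ℕ → ℂ) : Prop where
  lt : ∀ i, ok i → i < n
  comm : ∀ (x y : List ℕ) (a b : ℕ), (∀ i ∈ x, ok i) → (∀ i ∈ y, ok i) → ok a → ok b → a + 2 ≤ b →
    Φ (x ++ a :: b :: y) = Φ (x ++ b :: a :: y)
  braid : ∀ (x y : List ℕ) (j : ℕ), (∀ i ∈ x, ok i) → (∀ i ∈ y, ok i) → ok j → ok (j + 1) →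
    Φ (x ++ j :: (j + 1) :: j :: y) = Φ (x ++ (j + 1) :: j :: (j + 1) :: y)
  quad : ∀ (x y : List ℕ) (j : ℕ), (∀ i ∈ x, ok i) → (∀ i ∈ y, ok i) → ok j →
    Φ (x ++ j :: j :: y) = Φ (x ++ y) + z * Φ (x ++ j :: y)

theorem Rel.eqv {n : ℕ} {ok : ℕ → Prop} {z : ℂ} {Φ : List ℕ → ℂ} (h : Rel n ok z Φ)
    {u v : List ℕ} (e : Eqv n u v) : (∀ i ∈ u, ok i) → Φ u = Φ v := by
  induction e with
  | refl w => intro _; rfl
  | trans h1 _ ih ih' => intro hu; exact (ih hu).trans (ih' fun i hi => hu i ((h1.mem_iff i).2 hi))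
  | symm h1 ih => intro hu; exact (ih fun i hi => hu i ((h1.mem_iff i).1 hi)).symm
  | comm x y a b hab hb =>
    intro hu
    exact h.comm x y a b (fun i hi => hu i (by simp [hi])) (fun i hi => hu i (by simp [hi]))
      (hu a (by simp)) (hu b (by simp)) hab
  | braid x y j hj =>
    intro hu
    exact h.braid x y j (fun i hi => hu i (by simp [hi])) (fun i hi => hu i (by simp [hi]))
      (hu j (by simp)) (hu (j + 1) (by simp))

/-- the states whose normal form has all letters in `ok` -/
structure St (n : ℕ) (ok : ℕ → Prop) (D : ℕ → ℕ) : Prop where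
  dis : Dis n D
  mem : ∀ a ∈ nf n D, ok a

section

variable {n : ℕ} {ok : ℕ → Prop} {z : ℂ} {a B : ℝ}

theorem St.sw {D : ℕ → ℕ} (h : St n ok D) {i : ℕ} (hok : ok i) (hi : i < n) :
    St n ok (sw i D) := by
  refine ⟨h.dis.sw hi, fun b hb => ?_⟩
  by_cases hc : D i < D (i + 1)
  · have e := nf_up n h.dis hi hc
    have hb' := (e.mem_iff b).2 hb
    rcases List.mem_append.1 hb' with h1 | h1
    · exact h.mem b h1
    · rw [List.mem_singleton] at h1; subst h1; exact hok
  · have hc' : EV.sw i D i < EV.sw i D (i + 1) := by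
      rw [asc_sw]
      have := ne_succ h.dis hi
      omega
    have e := nf_up n (h.dis.sw hi) hi hc'
    rw [sw_sw] at e
    exact h.mem b ((e.mem_iff b).1 (List.mem_append_left _ hb))

/-- the bound `B a ^ len D` -/
def Bnd (n : ℕ) (ok : ℕ → Prop) (a B : ℝ) (f : (ℕ → ℕ) → ℂ) : Prop :=
  ∀ D, St n ok D → ‖f D‖ ≤ B * a ^ len n D

variable (hok : ∀ i, ok i → i < n)
include hok

theorem K_bnd (h : a ^ 2 = ‖z‖ * a + 1) {f : (ℕ → ℕ) → ℂ}
    (hf : Bnd n ok a B f) {i : ℕ} (hi : ok i) : Bnd n ok a (a * B) (K z i f) := by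
  intro D hD
  unfold K
  split_ifs with hc
  · have := hf _ (hD.sw hi (hok i hi))
    rw [len_up hD.dis (hok i hi) hc] at this
    calc _ ≤ _ := this
      _ = a * B * a ^ len n D := by ring
  · have h1 := hf _ hD
    have h2 := hf _ (hD.sw hi (hok i hi))
    have h3 := len_down hD.dis (hok i hi) hc
    rw [h3] at h1 ⊢
    have h4 : ‖z * f D + f (sw i D)‖ ≤ ‖z‖ * ‖f D‖ + ‖f (sw i D)‖ :=
      (norm_add_le _ _).trans (by rw [norm_mul])
    have h5 := mul_le_mul_of_nonneg_left h1 (norm_nonneg z)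
    have h6 : a * B * a ^ (len n (sw i D) + 1) = B * a ^ len n (sw i D) * (a ^ 2) := by ring
    rw [h6, h]
    have h7 : ‖z‖ * (B * a ^ (len n (sw i D) + 1)) = B * a ^ len n (sw i D) * (‖z‖ * a) := by
      ring
    rw [h7] at h5
    nlinarith

theorem Kw_bnd (h : a ^ 2 = ‖z‖ * a + 1) {f : (ℕ → ℕ) → ℂ}
    (hf : Bnd n ok a B f) {v : List ℕ} (hv : ∀ i ∈ v, ok i) :
    Bnd n ok a (a ^ v.length * B) (Kw z v f) := by
  induction v with
  | nil => simpa [Kw] using hf
  | cons i v ih =>
    have h1 := ih fun j hj => hv j (by simp [hj])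
    have h2 := K_bnd hok h h1 (hv i (by simp))
    rw [List.length_cons, pow_succ', mul_assoc]
    exact h2

/-- extraction of the path which stays -/
theorem stay (ha : 0 < a) (h : a ^ 2 = ‖z‖ * a + 1) {g : (ℕ → ℕ) → ℂ}
    (hg : Bnd n ok a B g) {x : ℕ → ℕ} (hx : St n ok x) {u : List ℕ} (hu : ∀ i ∈ u, ok i)
    (hd : ∀ i ∈ u, ¬ x i < x (i + 1)) :
    ‖Kw z u g x - z ^ u.length * g x‖ ≤ (a ^ u.length - ‖z‖ ^ u.length) * (B * a ^ len n x) := by
  induction u with
  | nil => simp [Kw]
  | cons j u ih =>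
    have h1 := ih (fun i hi => hu i (by simp [hi])) (fun i hi => hd i (by simp [hi]))
    have hj := hu j (by simp)
    have hdj := hd j (by simp)
    have h2 := Kw_bnd hok h hg (v := u) (fun i hi => hu i (by simp [hi])) _ (hx.sw hj (hok j hj))
    have h3 := len_down hx.dis (hok j hj) hdj
    have e : Kw z (j :: u) g x - z ^ (j :: u).length * g x
        = z * (Kw z u g x - z ^ u.length * g x) + Kw z u g (sw j x) := by
      rw [Kw, K, if_neg hdj, List.length_cons, pow_succ]
      ring
    rw [e]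
    refine (norm_add_le _ _).trans ?_
    rw [norm_mul]
    have h4 := mul_le_mul_of_nonneg_left h1 (norm_nonneg z)
    rw [List.length_cons]
    have h5 : a ^ u.length * B * a ^ len n (sw j x) = a ^ u.length * (1 / a) * (B * a ^ len n x) := by
      rw [h3, pow_succ]; field_simp
    rw [h5] at h2
    have h6 := a_inv ha h
    have h7 : (a ^ (u.length + 1) - ‖z‖ ^ (u.length + 1)) * (B * a ^ len n x)
        = ‖z‖ * ((a ^ u.length - ‖z‖ ^ u.length) * (B * a ^ len n x))
          + a ^ u.length * (1 / a) * (B * a ^ len n x) := by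
      have : a ^ (u.length + 1) = a ^ u.length * (‖z‖ + 1 / a) := by rw [h6]; ring
      rw [this]; ring
    rw [h7]
    exact add_le_add h4 h2

/-- two equal letters with descents in between -/
theorem base (ha : 0 < a) (h : a ^ 2 = ‖z‖ * a + 1) (hB : 0 ≤ B) {f : (ℕ → ℕ) → ℂ}
    (hf : Bnd n ok a B f) {x : ℕ → ℕ} (hx : St n ok x) {i : ℕ} {u rest : List ℕ} (hi : ok i)
    (hu : ∀ j ∈ u, ok j) (hr : ∀ j ∈ rest, ok j) (hiu : i ∉ u) (hdi : ¬ x i < x (i + 1))
    (hd : ∀ j ∈ u, ¬ x j < x (j + 1)) :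
    ‖Kw z (i :: (u ++ i :: rest)) f x‖ ≤
      (a ^ (u.length + 2) - ‖z‖ ^ u.length * del z) * (a ^ rest.length * B * a ^ len n x) := by
  set hh := Kw z rest f with hhdef
  have hhb : Bnd n ok a (a ^ rest.length * B) hh := Kw_bnd hok h hf hr
  set H := a ^ rest.length * B with hH
  have hH0 : 0 ≤ H := by positivity
  have hgb : Bnd n ok a (a * H) (K z i hh) := K_bnd hok h hhb hi
  have hxs := hx.sw hi (hok i hi)
  have hl := len_down hx.dis (hok i hi) hdi
  have hasc : sw i x i < sw i x (i + 1) := by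
    rw [asc_sw]
    have := ne_succ hx.dis (hok i hi)
    omega
  have hdu : ∀ j ∈ u, ¬ sw i x j < sw i x (j + 1) := fun j hj =>
    desc_keep hx.dis (hok i hi) (hok j (hu j hj)) (fun e => hiu (e ▸ hj)) hdi (hd j hj)
  have s1 := stay hok ha h hgb hx hu hd
  have s2 := stay hok ha h hgb hxs hu hdu
  have e0 : Kw z (i :: (u ++ i :: rest)) f x
      = z * Kw z u (K z i hh) x + Kw z u (K z i hh) (sw i x) := by
    rw [Kw, K, if_neg hdi, Kw_append, Kw]
  have e1 : K z i hh x = z * hh x + hh (sw i x) := by rw [K, if_neg hdi]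
  have e2 : K z i hh (sw i x) = hh x := by rw [K, if_pos hasc, sw_sw]
  set P1 := Kw z u (K z i hh) x with hP1
  set P2 := Kw z u (K z i hh) (sw i x) with hP2
  have e3 : z * P1 + P2 = z ^ u.length * ((z ^ 2 + 1) * hh x + z * hh (sw i x))
      + z * (P1 - z ^ u.length * K z i hh x) + (P2 - z ^ u.length * K z i hh (sw i x)) := by
    rw [e1, e2]; ring
  rw [e0, e3]
  have n1 : ‖z ^ u.length * ((z ^ 2 + 1) * hh x + z * hh (sw i x))‖
      ≤ ‖z‖ ^ u.length * (‖z ^ 2 + 1‖ * (H * a ^ len n x) + ‖z‖ * (H * a ^ len n (sw i x))) := by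
    rw [norm_mul, norm_pow]
    refine mul_le_mul_of_nonneg_left ?_ (by positivity)
    refine (norm_add_le _ _).trans ?_
    rw [norm_mul, norm_mul]
    exact add_le_add (mul_le_mul_of_nonneg_left (hhb x hx) (norm_nonneg _))
      (mul_le_mul_of_nonneg_left (hhb _ hxs) (norm_nonneg _))
  have n2 : ‖z * (P1 - z ^ u.length * K z i hh x)‖
      ≤ ‖z‖ * ((a ^ u.length - ‖z‖ ^ u.length) * (a * H * a ^ len n x)) := by
    rw [norm_mul]
    exact mul_le_mul_of_nonneg_left s1 (norm_nonneg _)
  refine (norm_add₃_le).trans ((add_le_add_three n1 n2 s2).trans (le_of_eq ?_))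
  have h6 : ‖z ^ 2 + 1‖ = ‖z‖ ^ 2 + 1 - del z := by unfold del; ring
  have h8 : a ^ (u.length + 2) = a ^ u.length * a ^ 2 := by ring
  have h10 : a ^ (len n (sw i x) + 1) = a ^ len n (sw i x) * a := pow_succ _ _
  rw [h6, h8, hl, h10]
  have h9 : a ^ 2 = ‖z‖ * a + 1 := h
  generalize a ^ len n (sw i x) = L
  generalize a ^ u.length = A
  generalize ‖z‖ ^ u.length = Z
  linear_combination (-(Z * H * L * (a + ‖z‖)) - (A - Z) * a * H * L) * h9

theorem base' (ha : 0 < a) (h : a ^ 2 = ‖z‖ * a + 1) (hB : 0 ≤ B) {f : (ℕ → ℕ) → ℂ}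
    (hf : Bnd n ok a B f) {x : ℕ → ℕ} (hx : St n ok x) {i : ℕ} {u rest : List ℕ} (hi : ok i)
    (hu : ∀ j ∈ u, ok j) (hr : ∀ j ∈ rest, ok j) (hiu : i ∉ u) (hdi : ¬ x i < x (i + 1))
    (hd : ∀ j ∈ u, ¬ x j < x (j + 1)) : Gd n z a B f (i :: (u ++ i :: rest)) x := by
  unfold Gd
  refine (base hok ha h hB hf hx hi hu hr hiu hdi hd).trans ?_
  have e : (i :: (u ++ i :: rest)).length = u.length + 2 + rest.length := by simp; omega
  have h1 : gain z a (i :: (u ++ i :: rest)).length ≤ gain z a u.length := by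
    apply gain_anti ha h
    rw [e]; omega
  have h2 : 0 ≤ a ^ (i :: (u ++ i :: rest)).length * B * a ^ len n x := by positivity
  have h3 : (a ^ (u.length + 2) - ‖z‖ ^ u.length * del z) * (a ^ rest.length * B * a ^ len n x)
      = (1 - gain z a u.length) * (a ^ (i :: (u ++ i :: rest)).length * B * a ^ len n x) := by
    rw [e]
    unfold gain
    have := pow_ne_zero u.length ha.ne'
    rw [div_pow]
    field_simp
    ring
  rw [h3]
  refine mul_le_mul_of_nonneg_right ?_ h2
  linarith

/-- the gain passes a stay -/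
theorem Gd_stay (ha : 0 < a) (h : a ^ 2 = ‖z‖ * a + 1) {f : (ℕ → ℕ) → ℂ}
    (hf : Bnd n ok a B f) {x : ℕ → ℕ} (hx : St n ok x) {i : ℕ} {v : List ℕ} (hi : ok i)
    (hv : ∀ j ∈ v, ok j) (hdi : ¬ x i < x (i + 1)) (hg : Gd n z a B f v x) :
    Gd n z a B f (i :: v) x := by
  unfold Gd at hg ⊢
  have h1 := Kw_bnd hok h hf hv _ (hx.sw hi (hok i hi))
  have hl := len_down hx.dis (hok i hi) hdi
  rw [Kw, K, if_neg hdi]
  refine (norm_add_le _ _).trans ?_
  rw [norm_mul]
  have h2 := mul_le_mul_of_nonneg_left hg (norm_nonneg z)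
  have h10 : a ^ (len n (sw i x) + 1) = a ^ len n (sw i x) * a := pow_succ _ _
  have hga : gain z a (i :: v).length * a = gain z a v.length * ‖z‖ := by
    rw [List.length_cons]
    unfold gain
    rw [pow_succ]
    field_simp
  have h11 : a ^ (i :: v).length = a ^ v.length * a := by rw [List.length_cons, pow_succ]
  rw [h11, hl, h10]
  rw [hl, h10] at h2
  refine (add_le_add h2 h1).trans (le_of_eq ?_)
  generalize a ^ len n (sw i x) = L
  generalize a ^ v.length = A
  generalize gain z a (i :: v).length = g1 at *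
  generalize gain z a v.length = g2 at *
  have h9 : a ^ 2 = ‖z‖ * a + 1 := h
  linear_combination (-(A * B * L)) * h9 + A * B * L * a * hga

/-- the gain passes an ascent -/
theorem Gd_up (ha : 0 < a) (h : a ^ 2 = ‖z‖ * a + 1) (hB : 0 ≤ B) {f : (ℕ → ℕ) → ℂ}
    {x : ℕ → ℕ} (hx : St n ok x) {i : ℕ} {v : List ℕ} (hi : ok i)
    (hai : x i < x (i + 1)) (hg : Gd n z a B f v (sw i x)) :
    Gd n z a B f (i :: v) x :=
  Gd.up ha h hB hx.dis (hok i hi) hai hg

theorem Gd_stays (ha : 0 < a) (h : a ^ 2 = ‖z‖ * a + 1) {f : (ℕ → ℕ) → ℂ}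
    (hf : Bnd n ok a B f) {x : ℕ → ℕ} (hx : St n ok x) {u v : List ℕ} (hu : ∀ j ∈ u, ok j)
    (hv : ∀ j ∈ v, ok j) (hd : ∀ j ∈ u, ¬ x j < x (j + 1)) (hg : Gd n z a B f v x) :
    Gd n z a B f (u ++ v) x := by
  induction u with
  | nil => exact hg
  | cons i u ih =>
    refine Gd_stay hok ha h hf hx (hu i (by simp)) ?_ (hd i (by simp))
      (ih (fun j hj => hu j (by simp [hj])) (fun j hj => hd j (by simp [hj])))
    intro j hj
    rcases List.mem_append.1 hj with hj | hj
    · exact hu j (by simp [hj])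
    · exact hv j hj

/-- **window lemma** -/
theorem window (ha : 0 < a) (h : a ^ 2 = ‖z‖ * a + 1) (hB : 0 ≤ B) {f : (ℕ → ℕ) → ℂ}
    (hf : Bnd n ok a B f) : ∀ (r : ℕ) (x : ℕ → ℕ) (v : List ℕ), St n ok x →
    n * (n + 1) / 2 ≤ len n x + r → (∀ j ∈ v, ok j) → (r + 1) * (n + 1) ≤ v.length →
    Gd n z a B f v x := by
  intro r
  induction r with
  | zero =>
    intro x v hx hl hv hlen
    have hmax : len n x = n * (n + 1) / 2 := by
      have := len_le n x
      omega
    have hd : ∀ j ∈ v, ¬ x j < x (j + 1) := by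
      intro j hj hc
      have h1 := len_up hx.dis (hok j (hv j hj)) hc
      have h2 := len_le n (sw j x)
      omega
    obtain ⟨v1, i, u, v2, rfl, hiu⟩ := exists_repeat n v (fun j hj => hok j (hv j hj)) (by omega)
    refine Gd_stays hok ha h hf hx (fun j hj => hv j (by simp [hj])) (fun j hj => hv j (by
      simp only [List.mem_append, List.mem_cons] at hj ⊢; tauto)) (fun j hj => hd j (by simp [hj])) ?_
    exact base' hok ha h hB hf hx (hv i (by simp)) (fun j hj => hv j (by simp [hj]))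
      (fun j hj => hv j (by simp [hj])) hiu (hd i (by simp)) (fun j hj => hd j (by simp [hj]))
  | succ r ih =>
    intro x v hx hl hv hlen
    by_cases hall : ∀ j ∈ v.take (n + 1), ¬ x j < x (j + 1)
    · -- a repeated letter in the first block
      have hv' : ∀ j ∈ v.take (n + 1), ok j := fun j hj => hv j (List.mem_of_mem_take hj)
      have hlt : (v.take (n + 1)).length = n + 1 := by
        rw [List.length_take]
        have : (r + 1 + 1) * (n + 1) = (r + 1) * (n + 1) + (n + 1) := by ring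
        omega
      obtain ⟨v1, i, u, v2, he, hiu⟩ := exists_repeat n (v.take (n + 1))
        (fun j hj => hok j (hv' j hj)) (by omega)
      have hv2 : v = v1 ++ i :: (u ++ i :: (v2 ++ v.drop (n + 1))) := by
        conv_lhs => rw [← List.take_append_drop (n + 1) v, he]
        simp
      rw [he] at hall hv'
      have hdrop : ∀ j ∈ v.drop (n + 1), ok j := fun j hj => hv j (List.mem_of_mem_drop hj)
      rw [hv2]
      refine Gd_stays hok ha h hf hx (fun j hj => hv' j (by simp [hj])) (fun j hj => ?_)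
        (fun j hj => hall j (by simp [hj])) ?_
      · rw [hv2] at hv
        exact hv j (by simp only [List.mem_append, List.mem_cons] at hj ⊢; tauto)
      · refine base' hok ha h hB hf hx (hv' i (by simp)) (fun j hj => hv' j (by simp [hj])) ?_ hiu
          (hall i (by simp)) (fun j hj => hall j (by simp [hj]))
        intro j hj
        rcases List.mem_append.1 hj with hj | hj
        · exact hv' j (by simp [hj])
        · exact hdrop j hj
    · -- the first ascent
      push Not at hall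
      obtain ⟨v1, i, v2, he, hd1, hai⟩ : ∃ v1 i v2, v.take (n + 1) = v1 ++ i :: v2 ∧
          (∀ j ∈ v1, ¬ x j < x (j + 1)) ∧ x i < x (i + 1) := by
        generalize v.take (n + 1) = t at hall
        induction t with
        | nil => obtain ⟨j, hj, _⟩ := hall; simp at hj
        | cons c t iht =>
          by_cases hc : x c < x (c + 1)
          · exact ⟨[], c, t, rfl, by simp, hc⟩
          · obtain ⟨j, hj, hj2⟩ := hall
            have hjt : j ∈ t := by
              rcases List.mem_cons.1 hj with h | h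
              · subst h; exact absurd hj2 hc
              · exact h
            obtain ⟨v1, i, v2, h1, h2, h3⟩ := iht ⟨j, hjt, hj2⟩
            refine ⟨c :: v1, i, v2, by rw [h1]; rfl, ?_, h3⟩
            intro k hk
            rcases List.mem_cons.1 hk with h | h
            · subst h; exact hc
            · exact h2 k h
      have hv2 : v = v1 ++ i :: (v2 ++ v.drop (n + 1)) := by
        conv_lhs => rw [← List.take_append_drop (n + 1) v, he]
        simp
      have hl1 : v1.length + 1 + v2.length ≤ n + 1 := by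
        have := congrArg List.length he
        rw [List.length_take] at this
        simp at this
        omega
      rw [hv2]
      rw [hv2] at hv hlen
      have hi : ok i := hv i (by simp)
      refine Gd_stays hok ha h hf hx (fun j hj => hv j (by simp [hj])) (fun j hj => ?_) hd1 ?_
      · exact hv j (by simp only [List.mem_append, List.mem_cons] at hj ⊢; tauto)
      · refine Gd_up hok ha h hB hx hi hai (ih _ _ (hx.sw hi (hok i hi)) ?_ ?_ ?_)
        · rw [len_up hx.dis (hok i hi) hai]; omega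
        · intro j hj
          exact hv j (by simp only [List.mem_append, List.mem_cons] at hj ⊢; tauto)
        · have : (r + 1 + 1) * (n + 1) = (r + 1) * (n + 1) + (n + 1) := by ring
          simp only [List.length_append, List.length_cons] at hlen ⊢
          omega

theorem windows (ha : 0 < a) (h : a ^ 2 = ‖z‖ * a + 1) (hB : 0 ≤ B) {f : (ℕ → ℕ) → ℂ}
    (hf : Bnd n ok a B f) : ∀ (k : ℕ) (w : List ℕ), (∀ j ∈ w, ok j) → k * L0 n ≤ w.length →
    Bnd n ok a ((1 - gain z a (L0 n)) ^ k * (a ^ w.length * B)) (Kw z w f) := by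
  intro k
  induction k with
  | zero =>
    intro w hw _
    rw [pow_zero, one_mul]
    exact Kw_bnd hok h hf hw
  | succ k ih =>
    intro w hw hk
    have e : (k + 1) * L0 n = k * L0 n + L0 n := by ring
    have h1 := ih (w.drop (L0 n)) (fun j hj => hw j (List.mem_of_mem_drop hj)) (by
      rw [List.length_drop]; omega)
    have hg1 := gain_le_one ha h (L0 n)
    have hlen : (w.take (L0 n)).length = L0 n := by
      rw [List.length_take]; omega
    intro x hx
    have hB' : 0 ≤ (1 - gain z a (L0 n)) ^ k * (a ^ (w.drop (L0 n)).length * B) := by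
      have : 0 ≤ 1 - gain z a (L0 n) := by linarith
      positivity
    have h2 := window hok ha h hB' h1 (n * (n + 1) / 2) x (w.take (L0 n)) hx (by omega)
      (fun j hj => hw j (List.mem_of_mem_take hj)) (by rw [hlen, L0])
    unfold Gd at h2
    rw [← Kw_append, List.take_append_drop, hlen] at h2
    refine h2.trans (le_of_eq ?_)
    have e2 : w.length = L0 n + (w.drop (L0 n)).length := by
      rw [List.length_drop]; omega
    rw [e2, pow_add a, pow_succ]
    ring

omit hok in
theorem st_id (n : ℕ) (ok : ℕ → Prop) : St n ok (fun j => j) :=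
  ⟨dis_id n, fun a ha => by rw [nf_mono n (fun i _ => by omega)] at ha; simp at ha⟩

end

section

variable {n : ℕ} {ok : ℕ → Prop} {z : ℂ} {Φ : List ℕ → ℂ}

/-- the value at the normal form followed by a word -/
def Fz (n : ℕ) (Φ : List ℕ → ℂ) (w : List ℕ) (D : ℕ → ℕ) : ℂ := Φ (nf n D ++ w)

theorem Fz_eq (h : Rel n ok z Φ) (w : List ℕ) (hw : ∀ i ∈ w, ok i) : ∀ (v : List ℕ),
    (∀ i ∈ v, ok i) → ∀ D, St n ok D → Fz n Φ (v ++ w) D = Kw z v (Fz n Φ w) D := by
  intro v
  induction v with
  | nil => intro _ D _; rfl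
  | cons i v ih =>
    intro hv D hD
    have hi := hv i (by simp)
    have hin := h.lt i hi
    have ih' := ih fun j hj => hv j (by simp [hj])
    have hvw : ∀ j ∈ v ++ w, ok j := by
      intro j hj
      rcases List.mem_append.1 hj with hj | hj
      · exact hv j (by simp [hj])
      · exact hw j hj
    rw [Kw, K]
    split_ifs with hc
    · rw [← ih' _ (hD.sw hi hin)]
      unfold Fz
      have e := ((nf_up n hD.dis hin hc).ctx [] (v ++ w))
      have := h.eqv e (by
        intro j hj
        simp only [List.nil_append, List.mem_append, List.mem_singleton] at hj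
        rcases hj with (hj | hj) | hj | hj
        · exact hD.mem j hj
        · rw [hj]; exact hi
        · exact hv j (by simp [hj])
        · exact hw j hj)
      simp only [List.nil_append, List.append_assoc, List.singleton_append] at this
      rw [List.cons_append, this]
    · rw [← ih' _ hD, ← ih' _ (hD.sw hi hin)]
      unfold Fz
      have hD' := hD.sw hi hin
      have hc' : sw i D i < sw i D (i + 1) := by
        rw [asc_sw]
        have := ne_succ hD.dis hin
        omega
      have e1 := (nf_up n hD'.dis hin hc')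
      rw [sw_sw] at e1
      have e2 := h.eqv ((e1.ctx [] (i :: (v ++ w)))) (by
        intro j hj
        simp only [List.nil_append, List.mem_append, List.mem_cons, List.not_mem_nil,
          or_false] at hj
        rcases hj with (hj | hj) | hj | hj | hj
        · exact hD'.mem j hj
        · rw [hj]; exact hi
        · rw [hj]; exact hi
        · exact hv j (by simp [hj])
        · exact hw j hj)
      have e3 := h.eqv ((e1.ctx [] (v ++ w))) (by
        intro j hj
        simp only [List.nil_append, List.mem_append, List.mem_singleton] at hj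
        rcases hj with (hj | hj) | hj | hj
        · exact hD'.mem j hj
        · rw [hj]; exact hi
        · exact hv j (by simp [hj])
        · exact hw j hj)
      simp only [List.nil_append, List.append_assoc, List.singleton_append] at e2 e3
      rw [List.cons_append, ← e2, ← e3, h.quad _ _ i hD'.mem hvw hi]
      ring

/-- **One-slot tail theorem.** -/
theorem slot_tail (n : ℕ) {ρ₀ R : ℝ} (hρ₀ : 0 < ρ₀) :
    ∃ c : ℝ, 0 < c ∧ ∃ C : ℝ, 0 < C ∧ ∀ (ok : ℕ → Prop) (z : ℂ) (Φ : List ℕ → ℂ),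
      Rel n ok z Φ → ρ₀ ≤ ‖z‖ → ‖z‖ ≤ R → ∀ a : ℝ, 0 < a → a ^ 2 = ‖z‖ * a + 1 →
      ∀ M : ℝ, (∀ u : List ℕ, (∀ i ∈ u, ok i) → u.length ≤ n * (n + 1) / 2 → ‖Φ u‖ ≤ M) →
      ∀ w : List ℕ, (∀ i ∈ w, ok i) →
      ‖Φ w‖ ≤ C * a ^ w.length * Real.exp (-(c * w.length * (1 - (z ^ 2).re / ‖z‖ ^ 2))) * M := by
  rcases lt_or_ge R ρ₀ with hR | hR
  · exact ⟨1, one_pos, 1, one_pos, fun ok z Φ _ h3 h4 => absurd (h3.trans h4) (not_le.2 hR)⟩
  have hR0 : 0 < R := hρ₀.trans_le hR
  set c₁ := (ρ₀ / (R + 1)) ^ L0 n * (ρ₀ ^ 2 / ((R ^ 2 + 1) * (R + 1) ^ 2)) with hc₁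
  have hc₁0 : 0 < c₁ := by positivity
  have hL : (0 : ℝ) < L0 n := by exact_mod_cast L0_pos n
  refine ⟨c₁ / L0 n, by positivity, Real.exp 1, by positivity, ?_⟩
  intro ok z Φ h hz1 hz2 a ha h2 M hM w hw
  have hM0 : 0 ≤ M := (norm_nonneg _).trans (hM [] (by simp) (by simp))
  have hz0 : 0 < ‖z‖ := hρ₀.trans_le hz1
  set g := gain z a (L0 n) with hg
  set Z := 1 - (z ^ 2).re / ‖z‖ ^ 2 with hZ
  have hZ0 : 0 ≤ Z := by
    have := Complex.re_le_norm (z ^ 2)
    rw [norm_pow] at this
    have : (z ^ 2).re / ‖z‖ ^ 2 ≤ 1 := by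
      rw [div_le_one (by positivity)]; exact this
    linarith
  -- lower bound for the gain
  have ha1 : a ≤ R + 1 := by
    by_contra hcon
    push Not at hcon
    nlinarith
  have hg1 : c₁ * Z ≤ g := by
    have e1 : (‖z‖ ^ 2 - (z ^ 2).re) = ‖z‖ ^ 2 * Z := by
      rw [hZ]; field_simp
    have d1 := del_ge z
    rw [e1] at d1
    have d2 : ρ₀ ^ 2 / (R ^ 2 + 1) * Z ≤ del z := by
      refine le_trans ?_ d1
      rw [mul_div_right_comm]
      refine mul_le_mul_of_nonneg_right ?_ hZ0
      rw [div_le_div_iff₀ (by positivity) (by positivity)]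
      have q1 : ρ₀ ^ 2 ≤ ‖z‖ ^ 2 := pow_le_pow_left₀ hρ₀.le hz1 2
      have q2 : ‖z‖ ^ 2 ≤ R ^ 2 := pow_le_pow_left₀ (norm_nonneg _) hz2 2
      nlinarith [mul_nonneg (sub_nonneg.2 q1) (sq_nonneg R), mul_nonneg (sub_nonneg.2 q2) (sq_nonneg ρ₀)]
    have d3 : ρ₀ / (R + 1) ≤ ‖z‖ / a := by
      rw [div_le_div_iff₀ (by positivity) ha]
      nlinarith
    have d4 : ρ₀ ^ 2 / ((R ^ 2 + 1) * (R + 1) ^ 2) * Z ≤ del z / a ^ 2 := by
      rw [le_div_iff₀ (by positivity)]
      refine le_trans ?_ d2
      have : a ^ 2 ≤ (R + 1) ^ 2 := pow_le_pow_left₀ ha.le ha1 2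
      have e2 : ρ₀ ^ 2 / ((R ^ 2 + 1) * (R + 1) ^ 2) * Z * a ^ 2
          = ρ₀ ^ 2 / (R ^ 2 + 1) * Z * (a ^ 2 / (R + 1) ^ 2) := by
        field_simp
      rw [e2]
      have : a ^ 2 / (R + 1) ^ 2 ≤ 1 := by rw [div_le_one (by positivity)]; exact this
      exact mul_le_of_le_one_right (by positivity) this
    rw [hg, gain, hc₁, mul_assoc]
    refine mul_le_mul (pow_le_pow_left₀ (by positivity) d3 _) d4 (by positivity) (by positivity)
  have hg0 : 0 ≤ g := gain_nonneg ha _
  have hgle : g ≤ 1 := gain_le_one ha h2 _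
  -- the bound
  set k := w.length / L0 n with hk
  have hf : Bnd n ok a M (Fz n Φ []) := by
    intro D hD
    unfold Fz
    rw [List.append_nil]
    have h3 := hM _ hD.mem (nf_length_le n D)
    refine h3.trans ?_
    have : 1 ≤ a ^ len n D := one_le_pow₀ (a_ge ha h2)
    nlinarith
  have h3 := windows h.lt ha h2 hM0 hf k w hw (Nat.div_mul_le_self _ _) _ (st_id n ok)
  rw [len_id, pow_zero, mul_one, ← Fz_eq h [] (by simp) w hw _ (st_id n ok)] at h3
  have e4 : Fz n Φ (w ++ []) (fun j => j) = Φ w := by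
    unfold Fz
    rw [nf_mono n (fun i _ => by omega), List.nil_append, List.append_nil]
  rw [e4] at h3
  refine h3.trans ?_
  have h5 : (1 - g) ^ k ≤ Real.exp 1 * Real.exp (-(c₁ / L0 n * w.length * Z)) := by
    have p1 : (1 - g) ^ k ≤ Real.exp (-(g * k)) := by
      have := pow_le_pow_left₀ (by linarith : 0 ≤ 1 - g) (Real.one_sub_le_exp_neg g) k
      rw [← Real.exp_nat_mul] at this
      refine this.trans (le_of_eq ?_)
      congr 1; ring
    refine p1.trans ?_
    rw [← Real.exp_add]
    apply Real.exp_le_exp.2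
    have p2 : (w.length : ℝ) / L0 n ≤ k + 1 := by
      rw [div_le_iff₀ hL]
      have : w.length < (k + 1) * L0 n := by
        have q1 := Nat.div_add_mod w.length (L0 n)
        have q2 := Nat.mod_lt w.length (L0_pos n)
        rw [← hk] at q1
        have q3 : (k + 1) * L0 n = L0 n * k + L0 n := by ring
        omega
      exact_mod_cast this.le
    have p3 : c₁ / L0 n * w.length * Z = c₁ * Z * (w.length / L0 n) := by ring
    rw [p3]
    have p4 : c₁ * Z * (w.length / L0 n) ≤ g * (w.length / L0 n) :=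
      mul_le_mul_of_nonneg_right hg1 (by positivity)
    have p5 : g * (w.length / L0 n) ≤ g * (k + 1) := mul_le_mul_of_nonneg_left p2 hg0
    linarith
  have h6 : 0 ≤ a ^ w.length * M := by positivity
  refine (mul_le_mul_of_nonneg_right h5 h6).trans (le_of_eq ?_)
  ring

end

end Pool.Agent.Helper29.EV2
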